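import Mathlib
import Pool.Agent.Run7.h777.MK.Maj
import Pool.Agent.Run7.h794.MK.Stm3

/-! Piece MAJ1 of project MK (helper794): the primes minus the model modulo `q`, with the characters of the major arcs,
in almost all short intervals. -/

set_option autoImplicit false

namespace Pool.Agent.Run7.h880.MK

open Finset
open Pool.Agent.Run7.h794.MK
open Pool.Agent.Run7.h777.MK
open Pool.Agent.H807R2.Dav (ee ee_add norm_ee ee_eq ee_int)
open Pool.Agent.H373R2.T7 (ev_L' ev_log')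
open Pool.Agent.H469R2.NK (norm_e)
open Pool.Agent.Q236.CR (S_SIA cc)

/-- shifting a period -/
lemma per_shift (f : ℕ → ℂ) (q : ℕ) (hf : ∀ n, f (n + q) = f n) (s : ℕ) :
    ∑ i ∈ range q, f (s + i) = ∑ i ∈ range q, f i := by
  induction s with
  | zero => simp
  | succ s ih =>
    rw [← ih]
    have h1 := Finset.sum_range_succ (fun i => f (s + i)) q
    have h2 := Finset.sum_range_succ' (fun i => f (s + i)) q
    have h3 : ∑ i ∈ range q, f (s + 1 + i) = ∑ i ∈ range q, f (s + (i + 1)) :=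
      sum_congr rfl fun i _ => by congr 1; omega
    rw [h3]
    have h4 : f (s + q) = f s := hf s
    rw [add_zero] at h2
    rw [h4] at h1
    have := h1.symm.trans h2
    exact (add_right_cancel this).symm

/-- many periods -/
lemma per_many (f : ℕ → ℂ) (q : ℕ) (hf : ∀ n, f (n + q) = f n) (s k : ℕ) :
    ∑ i ∈ range (k * q), f (s + i) = k * ∑ i ∈ range q, f i := by
  induction k with
  | zero => simp
  | succ k ih =>
    rw [Nat.succ_mul, sum_range_add, ih]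
    have h3 : ∑ i ∈ range q, f (s + (k * q + i)) = ∑ i ∈ range q, f (s + k * q + i) :=
      sum_congr rfl fun i _ => by congr 1; omega
    rw [h3, per_shift f q hf]
    push_cast
    ring

/-- the mean value over a window of a periodic function -/
lemma per_win (f : ℕ → ℂ) (q : ℕ) (hq : 1 ≤ q) (hf : ∀ n, f (n + q) = f n) (G : ℝ) (hG : ∀ n, ‖f n‖ ≤ G)
    (c : ℂ) (hc : ∑ i ∈ range q, f i = c * q) (hcG : ‖c‖ ≤ G) (m Y : ℕ) :
    ‖∑ n ∈ Ioc m (m + Y), f n - c * Y‖ ≤ 2 * (q * G) := by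
  rw [win_range]
  have hG0 : 0 ≤ G := (norm_nonneg _).trans hcG
  obtain ⟨k, r, hr, hY⟩ : ∃ k r : ℕ, r < q ∧ Y = k * q + r :=
    ⟨Y / q, Y % q, Nat.mod_lt _ hq, by rw [mul_comm]; exact (Nat.div_add_mod Y q).symm⟩
  have h1 : ∑ i ∈ range Y, f (m + i + 1) = k * (c * q) + ∑ i ∈ range r, f (m + 1 + k * q + i) := by
    have : ∑ i ∈ range Y, f (m + i + 1) = ∑ i ∈ range Y, f (m + 1 + i) :=
      sum_congr rfl fun i _ => by congr 1; omega
    rw [this, hY, sum_range_add, per_many f q hf, hc]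
    congr 1
    exact sum_congr rfl fun i _ => by congr 1; omega
  have h2 : ∑ i ∈ range Y, f (m + i + 1) - c * Y = ∑ i ∈ range r, f (m + 1 + k * q + i) - r * c := by
    rw [h1, hY]
    push_cast
    ring
  rw [h2]
  have hrq : (r : ℝ) ≤ q := by exact_mod_cast hr.le
  have h3 : ‖∑ i ∈ range r, f (m + 1 + k * q + i)‖ ≤ q * G := by
    refine (norm_sum_le _ _).trans ?_
    refine (sum_le_sum fun i _ => hG (m + 1 + k * q + i)).trans ?_
    rw [sum_const, card_range, nsmul_eq_mul]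
    gcongr
  have h4 : ‖(r : ℂ) * c‖ ≤ q * G := by
    rw [norm_mul, Complex.norm_natCast]
    gcongr
  have := norm_sub_le (∑ i ∈ range r, f (m + 1 + k * q + i)) ((r : ℂ) * c)
  linarith

lemma mk_nonneg (q n : ℕ) : 0 ≤ mk q n := by
  unfold Pool.Agent.Run7.h794.MK.mk
  split_ifs <;> positivity

lemma mk_le (q n : ℕ) : mk q n ≤ q := by
  unfold Pool.Agent.Run7.h794.MK.mk
  split_ifs
  · rcases Nat.eq_zero_or_pos q with h | h
    · subst h
      simp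
    · have h1 : 1 ≤ Nat.totient q := Nat.totient_pos.2 h
      have h2 : (1 : ℝ) ≤ Nat.totient q := by exact_mod_cast h1
      exact div_le_self (Nat.cast_nonneg _) h2
  · exact Nat.cast_nonneg _

lemma mk_add (q n : ℕ) : mk q (n + q) = mk q n := by
  unfold Pool.Agent.Run7.h794.MK.mk
  simp only [Nat.coprime_add_self_left]

lemma e_per (q a n : ℕ) (hq : 1 ≤ q) :
    Pool.Agent.H469R2.NK.e ((a : ℝ) * ((n + q : ℕ) : ℝ) / q) = Pool.Agent.H469R2.NK.e ((a : ℝ) * n / q) :=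
  _root_.Run7.h373.CR.e_class q a (n + q) n hq (by simp)

lemma norm_cc (q a : ℕ) (hq : 1 ≤ q) : ‖cc q a‖ ≤ q := by
  unfold cc
  have h1 : 1 ≤ Nat.totient q := Nat.totient_pos.2 hq
  have h2 : (1 : ℝ) ≤ Nat.totient q := by exact_mod_cast h1
  rw [norm_mul, norm_div, norm_one, Complex.norm_natCast]
  have h3 : ‖∑ b ∈ (Finset.range q).filter (fun b => b.Coprime q), Pool.Agent.H469R2.NK.e ((a : ℝ) * b / q)‖ ≤ q := by
    refine (norm_sum_le _ _).trans ?_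
    simp only [norm_e]
    rw [sum_const, nsmul_eq_mul, mul_one]
    exact_mod_cast (card_filter_le _ _).trans (by rw [card_range])
  have h4 : 1 / (Nat.totient q : ℝ) ≤ 1 := by
    rw [div_le_one (by linarith)]
    exact h2
  calc _ ≤ 1 * (q : ℝ) := by gcongr
    _ = q := one_mul _

/-- the model modulo `q` in every window -/
lemma mk_win (q a m Y : ℕ) (hq : 1 ≤ q) :
    ‖∑ n ∈ Ioc m (m + Y), (mk q n : ℂ) * Pool.Agent.H469R2.NK.e ((a : ℝ) * n / q) - cc q a * Y‖ ≤ 2 * (q * q) := by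
  have hq0 : (q : ℂ) ≠ 0 := by exact_mod_cast (by omega : q ≠ 0)
  refine per_win (fun n => (mk q n : ℂ) * Pool.Agent.H469R2.NK.e ((a : ℝ) * n / q)) q hq ?_ q ?_ (cc q a) ?_
    (norm_cc q a hq) m Y
  · intro n
    show (mk q (n + q) : ℂ) * _ = _
    rw [mk_add, e_per q a n hq]
  · intro n
    rw [norm_mul, norm_e, mul_one, Complex.norm_real, Real.norm_eq_abs, abs_of_nonneg (mk_nonneg q n)]
    exact mk_le q n
  · unfold cc
    rw [sum_filter, mul_sum, sum_mul]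
    apply sum_congr rfl
    intro c _
    unfold Pool.Agent.Run7.h794.MK.mk
    split_ifs
    · push_cast
      ring
    · simp

theorem t_MAJ1 : S_SIA → S_MAJ1 := by
  intro hSIA B U
  obtain ⟨C1, X1, h1⟩ := hSIA B (U + 2)
  set K : ℕ := 2 * B + U + 6 with hK
  obtain ⟨X4, h4⟩ := ev_L' (max (2 ^ (C1 + 2)) 50)
  refine ⟨C1 + K + 2 + (2 * B + U + 3), max (max X1 X4) 4, fun x hx q hq hqB Y hY1 hY2 a α hα => ?_⟩
  have a1 := h1 x (le_trans (le_trans (le_max_left _ _) (le_max_left _ _)) hx)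
  have a1' := h1 (2 * x) (le_trans (le_trans (le_trans (le_max_left _ _) (le_max_left _ _)) hx) (by omega))
  have a4 := h4 x (le_trans (le_trans (le_max_right _ _) (le_max_left _ _)) hx)
  have hx4 : 4 ≤ x := le_trans (le_max_right _ _) hx
  have hxR : (4 : ℝ) ≤ x := by exact_mod_cast hx4
  set L : ℝ := Real.log x with hLdef
  have hL50 : 50 ≤ L := (le_max_right _ _).trans a4
  have hLC : (2 : ℝ) ^ (C1 + 2) ≤ L := (le_max_left _ _).trans a4
  have hL1 : 1 ≤ L := by linarith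
  have hL0 : 0 < L := by linarith
  have hLK : (0 : ℝ) < L ^ K := by positivity
  -- size of `Y`
  have hYR : (Y : ℝ) ≤ x := by
    have : (Y : ℝ) * 1 ≤ Y * L ^ (C1 + K + 2 + (2 * B + U + 3)) := by
      gcongr
      exact one_le_pow₀ hL1
    linarith
  have hYx : Y ≤ x := by exact_mod_cast hYR
  have hx13 : (1 : ℝ) ≤ (x : ℝ) ^ (1 / 3 : ℝ) := Real.one_le_rpow (by linarith) (by norm_num)
  have hYbig : (x : ℝ) ^ (1 / 3 : ℝ) * L ^ (C1 + 2) * L ^ (2 * B + U + 3) ≤ Y / L ^ K := by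
    rw [le_div_iff₀ hLK]
    refine le_trans (le_of_eq ?_) hY1
    ring
  set Y1 : ℕ := ⌊(Y : ℝ) / L ^ K⌋₊ with hY1def
  have hY1up : (Y1 : ℝ) ≤ Y / L ^ K := Nat.floor_le (by positivity)
  have hlow : (50 : ℝ) ≤ (x : ℝ) ^ (1 / 3 : ℝ) * L ^ (C1 + 2) := by
    calc (50 : ℝ) ≤ 1 * L ^ 1 := by linarith
      _ ≤ (x : ℝ) ^ (1 / 3 : ℝ) * L ^ (C1 + 2) := by
          have g1 : L ^ 1 ≤ L ^ (C1 + 2) := pow_le_pow_right₀ hL1 (by omega)
          gcongr
  have hpw1 : (1 : ℝ) ≤ L ^ (2 * B + U + 3) := one_le_pow₀ hL1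
  have hY1lo' : (x : ℝ) ^ (1 / 3 : ℝ) * L ^ (C1 + 2) * L ^ (2 * B + U + 3) / 2 ≤ Y1 := by
    have b1 : (Y : ℝ) / L ^ K < Y1 + 1 := Nat.lt_floor_add_one _
    have b2 : (50 : ℝ) ≤ (x : ℝ) ^ (1 / 3 : ℝ) * L ^ (C1 + 2) * L ^ (2 * B + U + 3) := by
      nlinarith
    linarith
  have hY1lo : (x : ℝ) ^ (1 / 3 : ℝ) * L ^ (C1 + 2) / 2 ≤ Y1 := by
    refine le_trans ?_ hY1lo'
    nlinarith
  have hY1q : L ^ (2 * B + U + 3) * 2 ≤ Y1 := by
    refine le_trans ?_ hY1lo'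
    nlinarith
  have hlog2 : Real.log ((2 * x : ℕ) : ℝ) ≤ 2 * L := by
    push_cast
    rw [Real.log_mul (by norm_num) (by linarith)]
    have : Real.log 2 ≤ Real.log x := Real.log_le_log (by norm_num) (by linarith)
    linarith
  have hlog2' : L ≤ Real.log ((2 * x : ℕ) : ℝ) := by
    apply Real.log_le_log (by linarith)
    push_cast
    linarith
  have hY1lo2 : ((2 * x : ℕ) : ℝ) ^ (1 / 3 : ℝ) * Real.log ((2 * x : ℕ) : ℝ) ^ C1 ≤ Y1 := by
    have b1 : ((2 * x : ℕ) : ℝ) ^ (1 / 3 : ℝ) ≤ 2 * (x : ℝ) ^ (1 / 3 : ℝ) := by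
      push_cast
      rw [Real.mul_rpow (by norm_num) (by linarith)]
      gcongr
      calc (2 : ℝ) ^ (1 / 3 : ℝ) ≤ 2 ^ (1 : ℝ) := Real.rpow_le_rpow_of_exponent_le (by norm_num) (by norm_num)
        _ = 2 := by norm_num
    have b2 : Real.log ((2 * x : ℕ) : ℝ) ^ C1 ≤ (2 * L) ^ C1 := by
      gcongr
    calc _ ≤ (2 * (x : ℝ) ^ (1 / 3 : ℝ)) * (2 * L) ^ C1 := by gcongr
      _ = (x : ℝ) ^ (1 / 3 : ℝ) * (L ^ C1 * 2 ^ (C1 + 2)) / 2 := by ring
      _ ≤ (x : ℝ) ^ (1 / 3 : ℝ) * (L ^ C1 * (L * L)) / 2 := by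
          gcongr
          nlinarith
      _ = (x : ℝ) ^ (1 / 3 : ℝ) * L ^ (C1 + 2) / 2 := by ring
      _ ≤ Y1 := hY1lo
  have hY1lo1 : (x : ℝ) ^ (1 / 3 : ℝ) * L ^ C1 ≤ Y1 := by
    refine le_trans ?_ hY1lo2
    gcongr
    push_cast
    linarith
  have hY1one : (1 : ℝ) ≤ Y1 := by
    refine le_trans ?_ hY1lo1
    calc (1 : ℝ) = 1 * 1 := by norm_num
      _ ≤ _ := by
          gcongr
          exact one_le_pow₀ hL1
  have hY1one' : 1 ≤ Y1 := by exact_mod_cast hY1one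
  have hY1YR : (Y1 : ℝ) ≤ Y := hY1up.trans (div_le_self (by positivity) (one_le_pow₀ hL1))
  have hY1Y : Y1 ≤ Y := by exact_mod_cast hY1YR
  -- the rational point
  obtain ⟨a', k, hak⟩ : ∃ (a' : ℕ) (k : ℤ), a = (a' : ℤ) + k * q := by
    have hq0 : (q : ℤ) ≠ 0 := by exact_mod_cast (by omega : q ≠ 0)
    refine ⟨(a % (q : ℤ)).toNat, a / (q : ℤ), ?_⟩
    rw [Int.toNat_of_nonneg (Int.emod_nonneg _ hq0)]
    have := Int.emod_add_mul_ediv a (q : ℤ)
    linarith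
  have hqR : (0 : ℝ) < q := by exact_mod_cast hq
  have hqL' : (q : ℝ) ≤ Real.log ((2 * x : ℕ) : ℝ) ^ B := by
    refine hqB.trans ?_
    gcongr
  have hee : ∀ n : ℕ, ee (n * ((a : ℝ) / q)) = Pool.Agent.H469R2.NK.e ((a' : ℝ) * n / q) := by
    intro n
    rw [e_eq_ee]
    have : (n : ℝ) * ((a : ℝ) / q) = (a' : ℝ) * n / q + ((n * k : ℤ) : ℝ) := by
      rw [hak]
      push_cast
      field_simp
    rw [this, ee_add, ee_int, mul_one]
  have hW1 : ∀ j : ℕ, W (fun n => ArithmeticFunction.vonMangoldt n) ((a : ℝ) / q) j Y1 =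
      ∑ n ∈ Ioc j (j + Y1), (ArithmeticFunction.vonMangoldt n : ℂ) * Pool.Agent.H469R2.NK.e ((a' : ℝ) * n / q) := by
    intro j
    unfold W
    exact sum_congr rfl fun n _ => by rw [hee]
  have hW2 : ∀ j : ℕ, W (mk q) ((a : ℝ) / q) j Y1 =
      ∑ n ∈ Ioc j (j + Y1), (mk q n : ℂ) * Pool.Agent.H469R2.NK.e ((a' : ℝ) * n / q) := by
    intro j
    unfold W
    exact sum_congr rfl fun n _ => by rw [hee]
  have c1 : ∑ j ∈ Ioc x (4 * x), ‖W (fun n => ArithmeticFunction.vonMangoldt n) ((a : ℝ) / q) j Y1 -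
      cc q a' * Y1‖ ^ 2 ≤ 3 * (x * (Y1 : ℝ) ^ 2 / L ^ (U + 2)) := by
    have d1 := (a1 q hq hqB a' Y1 hY1lo1 (hY1Y.trans hYx)).1
    have d2 := (a1' q hq hqL' a' Y1 hY1lo2 ((hY1Y.trans hYx).trans (by omega))).1
    simp only [← hW1] at d1 d2
    have d3 := Finset.sum_Ioc_consecutive (fun j => ‖W (fun n => ArithmeticFunction.vonMangoldt n) ((a : ℝ) / q) j Y1 -
      cc q a' * Y1‖ ^ 2) (show x ≤ 2 * x by omega) (show 2 * x ≤ 2 * (2 * x) by omega)
    have d4 : (2 * (2 * x)) = 4 * x := by ring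
    rw [d4] at d3 d2
    rw [← d3]
    have d5 : ((2 * x : ℕ) : ℝ) * (Y1 : ℝ) ^ 2 / Real.log ((2 * x : ℕ) : ℝ) ^ (U + 2) ≤
        2 * (x * (Y1 : ℝ) ^ 2 / L ^ (U + 2)) := by
      have : ((2 * x : ℕ) : ℝ) * (Y1 : ℝ) ^ 2 / Real.log ((2 * x : ℕ) : ℝ) ^ (U + 2) ≤
          ((2 * x : ℕ) : ℝ) * (Y1 : ℝ) ^ 2 / L ^ (U + 2) := by
        gcongr
      refine this.trans (le_of_eq ?_)
      push_cast
      ring
    linarith
  have c2 : ∀ j ∈ Ioc x (4 * x), ‖W (mk q) ((a : ℝ) / q) j Y1 - cc q a' * Y1‖ ^ 2 ≤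
      (Y1 : ℝ) ^ 2 / L ^ (U + 2) := by
    intro j _
    rw [hW2]
    have d1 := mk_win q a' j Y1 hq
    have d2 : (2 : ℝ) * (q * q) ≤ Y1 / L ^ (U + 2) := by
      rw [le_div_iff₀ (by positivity)]
      refine le_trans ?_ hY1q
      calc 2 * ((q : ℝ) * q) * L ^ (U + 2) ≤ 2 * (L ^ B * L ^ B) * L ^ (U + 2) := by gcongr
        _ = L ^ (2 * B + U + 2) * 2 := by ring
        _ ≤ L ^ (2 * B + U + 3) * 2 := by
            have := pow_le_pow_right₀ hL1 (show 2 * B + U + 2 ≤ 2 * B + U + 3 by omega)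
            linarith
    calc _ ≤ ((Y1 : ℝ) / L ^ (U + 2)) ^ 2 := by
          have := d1.trans d2
          gcongr
      _ = (Y1 : ℝ) ^ 2 / L ^ (U + 2) / L ^ (U + 2) := by ring
      _ ≤ (Y1 : ℝ) ^ 2 / L ^ (U + 2) := div_le_self (by positivity) (one_le_pow₀ hL1)
  have c3 := ms_rat (fun n => ArithmeticFunction.vonMangoldt n) (mk q) ((a : ℝ) / q) (cc q a' * Y1)
    (Ioc x (4 * x)) Y1 _ _ c1 c2
  rw [Nat.card_Ioc] at c3
  have c4 : (((4 * x - x : ℕ)) : ℝ) = 3 * x := by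
    have : 4 * x - x = 3 * x := by omega
    rw [this]
    push_cast
    ring
  rw [c4] at c3
  have c5 : ∑ j ∈ Ioc x (4 * x), ‖W (fun n => ArithmeticFunction.vonMangoldt n - mk q n) ((a : ℝ) / q) j Y1‖ ^ 2 ≤
      12 * (x * (Y1 : ℝ) ^ 2 / L ^ (U + 2)) := by
    refine c3.trans (le_of_eq ?_)
    ring
  -- the bound of the coefficients
  have hG : ∀ n, x < n → n ≤ 4 * x → |ArithmeticFunction.vonMangoldt n - mk q n| ≤ L ^ (B + 2) := by
    intro n h5 h6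
    have d1 : ArithmeticFunction.vonMangoldt n ≤ Real.log n := ArithmeticFunction.vonMangoldt_le_log
    have d2 : (0 : ℝ) ≤ ArithmeticFunction.vonMangoldt n := ArithmeticFunction.vonMangoldt_nonneg
    have d3 := mk_nonneg q n
    have d4 := (mk_le q n).trans hqB
    have d5 : Real.log n ≤ 2 * L := by
      have e1 : (n : ℝ) ≤ 4 * x := by exact_mod_cast h6
      have e2 : (x : ℝ) < n := by exact_mod_cast h5
      calc Real.log n ≤ Real.log (4 * x) := Real.log_le_log (by linarith) e1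
        _ = Real.log 4 + L := by rw [Real.log_mul (by norm_num) (by linarith)]
        _ ≤ 2 * L := by
            have : Real.log 4 ≤ L := Real.log_le_log (by norm_num) hxR
            linarith
    have d6 : L ^ B + 2 * L ≤ L ^ (B + 2) := by
      have e1 : (1 : ℝ) ≤ L ^ B := one_le_pow₀ hL1
      have e2 : L ^ (B + 2) = L ^ B * L ^ 2 := pow_add _ _ _
      rw [e2]
      have e3 : 0 ≤ L ^ 2 - 1 := by nlinarith
      have e4 := mul_nonneg (sub_nonneg.2 e1) e3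
      nlinarith
    have d7 : 0 ≤ L := hL0.le
    rw [abs_le]
    constructor <;> linarith
  have hMS := ms_short (fun n => ArithmeticFunction.vonMangoldt n - mk q n) ((a : ℝ) / q) (α - a / q) x Y Y1
    hY1one' hY1Y hYx (L ^ (B + 2)) (by positivity) hG
  rw [add_sub_cancel] at hMS
  refine hMS.trans ?_
  have hYpos : (0 : ℝ) < Y := by linarith
  have e1 : 2 * ((Y : ℝ) ^ 2 / (Y1 : ℝ) ^ 2) * (∑ j ∈ Ioc x (4 * x),
      ‖W (fun n => ArithmeticFunction.vonMangoldt n - mk q n) ((a : ℝ) / q) j Y1‖ ^ 2) ≤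
      24 * (x * (Y : ℝ) ^ 2 / L ^ (U + 2)) := by
    calc _ ≤ 2 * ((Y : ℝ) ^ 2 / (Y1 : ℝ) ^ 2) * (12 * (x * (Y1 : ℝ) ^ 2 / L ^ (U + 2))) := by gcongr
      _ = 24 * (x * (Y : ℝ) ^ 2 / L ^ (U + 2)) := by
          have : (Y1 : ℝ) ≠ 0 := by linarith
          field_simp
          ring
  have e2 : Y * (L ^ (B + 2) * (2 * Real.pi * (Y1 * |α - a / q|))) + 2 * Y1 * (L ^ (B + 2)) ≤
      9 * (Y / L ^ (U + 4)) := by
    have f1 : Y * (L ^ (B + 2) * (2 * Real.pi * (Y1 * |α - a / q|))) ≤ 7 * (Y1 * (L ^ (B + 2) * L ^ B)) := by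
      have g1 : (Y : ℝ) * |α - a / q| ≤ L ^ B := by
        rw [le_div_iff₀ hYpos] at hα
        linarith
      calc Y * (L ^ (B + 2) * (2 * Real.pi * (Y1 * |α - a / q|))) =
          (2 * Real.pi) * (Y1 * (L ^ (B + 2) * (Y * |α - a / q|))) := by ring
        _ ≤ 7 * (Y1 * (L ^ (B + 2) * L ^ B)) := by
            gcongr
            nlinarith [Real.pi_lt_d2]
    have f2 : 2 * Y1 * (L ^ (B + 2)) ≤ 2 * (Y1 * (L ^ (B + 2) * L ^ B)) := by
      have : L ^ (B + 2) * 1 ≤ L ^ (B + 2) * L ^ B := by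
        gcongr
        exact one_le_pow₀ hL1
      calc 2 * (Y1 : ℝ) * (L ^ (B + 2)) = 2 * (Y1 * (L ^ (B + 2) * 1)) := by ring
        _ ≤ _ := by gcongr
    have f3 : (Y1 : ℝ) * (L ^ (B + 2) * L ^ B) ≤ Y / L ^ (U + 4) := by
      calc (Y1 : ℝ) * (L ^ (B + 2) * L ^ B) ≤ Y / L ^ K * (L ^ (B + 2) * L ^ B) := by gcongr
        _ = Y / L ^ (U + 4) := by
            rw [hK]
            field_simp
            ring
    linarith
  have e3 : 0 ≤ Y * (L ^ (B + 2) * (2 * Real.pi * (Y1 * |α - a / q|))) + 2 * Y1 * (L ^ (B + 2)) := by positivity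
  have e4 : 2 * (x : ℝ) * (Y * (L ^ (B + 2) * (2 * Real.pi * (Y1 * |α - a / q|))) + 2 * Y1 * (L ^ (B + 2))) ^ 2 ≤
      x * (Y : ℝ) ^ 2 / L ^ U / 2 := by
    calc _ ≤ 2 * (x : ℝ) * (9 * (Y / L ^ (U + 4))) ^ 2 := by gcongr
      _ = x * (Y : ℝ) ^ 2 / L ^ U / 2 * (324 / L ^ (U + 8)) := by
          field_simp
          ring
      _ ≤ x * (Y : ℝ) ^ 2 / L ^ U / 2 * 1 := by
          gcongr
          rw [div_le_one (by positivity)]
          calc (324 : ℝ) ≤ L ^ 2 := by nlinarith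
            _ ≤ L ^ (U + 8) := pow_le_pow_right₀ hL1 (by omega)
      _ = _ := by ring
  have e5 : 24 * (x * (Y : ℝ) ^ 2 / L ^ (U + 2)) ≤ x * (Y : ℝ) ^ 2 / L ^ U / 2 := by
    calc 24 * (x * (Y : ℝ) ^ 2 / L ^ (U + 2)) = x * (Y : ℝ) ^ 2 / L ^ U / 2 * (48 / L ^ 2) := by
          field_simp
          ring
      _ ≤ x * (Y : ℝ) ^ 2 / L ^ U / 2 * 1 := by
          gcongr
          rw [div_le_one (by positivity)]
          nlinarith
      _ = _ := by ring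
  have e6 : x * (Y : ℝ) ^ 2 / L ^ U / 2 + x * (Y : ℝ) ^ 2 / L ^ U / 2 = x * (Y : ℝ) ^ 2 / L ^ U := by ring
  linarith

end Pool.Agent.Run7.h880.MK
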