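import Mathlib

/-! Project MK, piece RND, part A: concentration of empirical means (random samples with repetition). -/

set_option autoImplicit false

namespace Pool.Agent.Run7.h880.MK

open Finset

/-- the samples of size `m` -/
def Smp {ι : Type} (Ω : Finset ι) (m : ℕ) : Finset (Fin m → ι) := Fintype.piFinset fun _ => Ω

lemma Smp_card {ι : Type} (Ω : Finset ι) (m : ℕ) : (Smp Ω m).card = Ω.card ^ m := by
  unfold Smp
  rw [Fintype.card_piFinset, prod_const, card_univ, Fintype.card_fin]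

lemma Smp_mem {ι : Type} {Ω : Finset ι} {m : ℕ} {w : Fin m → ι} : w ∈ Smp Ω m ↔ ∀ l, w l ∈ Ω := by
  unfold Smp
  exact Fintype.mem_piFinset

lemma exp_conv (y t : ℝ) (hy : |y| ≤ 1) : Real.exp (t * y) ≤ Real.cosh t + y * Real.sinh t := by
  have h := abs_le.1 hy
  have hc := convexOn_exp
  have h1 := hc.2 (Set.mem_univ t) (Set.mem_univ (-t)) (show (0 : ℝ) ≤ (1 + y) / 2 by linarith)
    (show (0 : ℝ) ≤ (1 - y) / 2 by linarith) (by ring)
  simp only [smul_eq_mul] at h1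
  have h2 : (1 + y) / 2 * t + (1 - y) / 2 * -t = t * y := by ring
  rw [h2] at h1
  rw [Real.cosh_eq, Real.sinh_eq]
  calc _ ≤ _ := h1
    _ = _ := by ring

lemma hoeff {ι : Type} (Ω : Finset ι) (y : ι → ℝ) (hy : ∀ ω ∈ Ω, |y ω| ≤ 2)
    (h0 : ∑ ω ∈ Ω, y ω = 0) (m : ℕ) (δ : ℝ) (hδ : 0 ≤ δ) :
    (((Smp Ω m).filter fun w => δ * m ≤ ∑ l, y (w l)).card : ℝ) ≤ Ω.card ^ m * Real.exp (-(δ ^ 2 * m / 8)) := by
  classical
  have ht : (0 : ℝ) ≤ δ / 4 := by linarith
  have h1 : ∑ ω ∈ Ω, Real.exp (δ / 4 * y ω) ≤ Ω.card * Real.exp (δ ^ 2 / 8) := by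
    calc ∑ ω ∈ Ω, Real.exp (δ / 4 * y ω) ≤ ∑ ω ∈ Ω, (Real.cosh (δ / 2) + y ω / 2 * Real.sinh (δ / 2)) := by
          refine sum_le_sum fun ω hω => ?_
          have := exp_conv (y ω / 2) (δ / 2) (by
            have := hy ω hω
            rw [abs_div, abs_two]
            linarith)
          calc Real.exp (δ / 4 * y ω) = Real.exp (δ / 2 * (y ω / 2)) := by congr 1; ring
            _ ≤ _ := this
      _ = Ω.card * Real.cosh (δ / 2) := by
          rw [sum_add_distrib, sum_const, nsmul_eq_mul, ← sum_mul, ← sum_div, h0]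
          ring
      _ ≤ _ := by
          refine mul_le_mul_of_nonneg_left ?_ (Nat.cast_nonneg _)
          have := Real.cosh_le_exp_half_sq (δ / 2)
          refine this.trans (le_of_eq ?_)
          congr 1
          ring
  have h2 : (((Smp Ω m).filter fun w => δ * m ≤ ∑ l, y (w l)).card : ℝ) ≤
      ∑ w ∈ Smp Ω m, Real.exp (-(δ / 4 * (δ * m))) * ∏ l, Real.exp (δ / 4 * y (w l)) := by
    rw [card_eq_sum_ones, Nat.cast_sum]
    calc ∑ w ∈ (Smp Ω m).filter (fun w => δ * m ≤ ∑ l, y (w l)), ((1 : ℕ) : ℝ)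
        ≤ ∑ w ∈ (Smp Ω m).filter (fun w => δ * m ≤ ∑ l, y (w l)),
            Real.exp (-(δ / 4 * (δ * m))) * ∏ l, Real.exp (δ / 4 * y (w l)) := by
          refine sum_le_sum fun w hw => ?_
          have hw := (mem_filter.1 hw).2
          rw [← Real.exp_sum, ← Real.exp_add, ← mul_sum]
          rw [Nat.cast_one]
          refine Real.one_le_exp ?_
          have := mul_le_mul_of_nonneg_left hw ht
          linarith
      _ ≤ _ := sum_le_sum_of_subset_of_nonneg (filter_subset _ _) fun _ _ _ => by positivity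
  refine h2.trans ?_
  rw [← mul_sum]
  have h3 : ∑ w ∈ Smp Ω m, ∏ l, Real.exp (δ / 4 * y (w l)) = (∑ ω ∈ Ω, Real.exp (δ / 4 * y ω)) ^ m := by
    have := Finset.prod_univ_sum (fun _ : Fin m => Ω) (fun (_ : Fin m) (ω : ι) => Real.exp (δ / 4 * y ω))
    rw [prod_const, card_univ, Fintype.card_fin] at this
    rw [this]
    rfl
  rw [h3]
  calc Real.exp (-(δ / 4 * (δ * m))) * (∑ ω ∈ Ω, Real.exp (δ / 4 * y ω)) ^ m
      ≤ Real.exp (-(δ / 4 * (δ * m))) * (Ω.card * Real.exp (δ ^ 2 / 8)) ^ m := by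
        refine mul_le_mul_of_nonneg_left (pow_le_pow_left₀ (sum_nonneg fun _ _ => (Real.exp_pos _).le) h1 m) (Real.exp_pos _).le
    _ = Ω.card ^ m * Real.exp (-(δ ^ 2 * m / 8)) := by
        rw [mul_pow, ← Real.exp_nat_mul]
        have : Real.exp (-(δ ^ 2 * m / 8)) = Real.exp (-(δ / 4 * (δ * m))) * Real.exp (m * (δ ^ 2 / 8)) := by
          rw [← Real.exp_add]
          congr 1
          ring
        rw [this]
        ring

/-- the deviation of the empirical mean -/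
noncomputable def dev {ι : Type} (Ω : Finset ι) (m : ℕ) (x : ι → ℝ) (w : Fin m → ι) : ℝ :=
  |(1 / m : ℝ) * ∑ l, x (w l) - (1 / Ω.card : ℝ) * ∑ ω ∈ Ω, x ω|

open scoped Classical in
lemma hoeff2 {ι : Type} (Ω : Finset ι) (hΩ : Ω.Nonempty) (x : ι → ℝ) (hx : ∀ ω ∈ Ω, |x ω| ≤ 1) (m : ℕ) (hm : 1 ≤ m)
    (δ : ℝ) (hδ : 0 ≤ δ) :
    (((Smp Ω m).filter fun w => δ < dev Ω m x w).card : ℝ) ≤ 2 * (Ω.card ^ m * Real.exp (-(δ ^ 2 * m / 8))) := by
  obtain ⟨μ, hμ⟩ : ∃ μ, μ = (1 / Ω.card : ℝ) * ∑ ω ∈ Ω, x ω := ⟨_, rfl⟩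
  have hc : (0 : ℝ) < Ω.card := by exact_mod_cast card_pos.2 hΩ
  have hm0 : (0 : ℝ) < m := by exact_mod_cast hm
  have hμ1 : |μ| ≤ 1 := by
    rw [hμ, abs_mul, abs_of_nonneg (by positivity), one_div, inv_mul_le_iff₀ hc, mul_one]
    refine (abs_sum_le_sum_abs _ _).trans ((sum_le_sum hx).trans ?_)
    rw [sum_const, nsmul_eq_mul, mul_one]
  have hs : ∑ ω ∈ Ω, x ω = Ω.card * μ := by rw [hμ]; field_simp
  have e1 := hoeff Ω (fun ω => x ω - μ) (fun ω hω => by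
    have a := abs_le.1 (hx ω hω)
    have b := abs_le.1 hμ1
    rw [abs_le]
    constructor <;> linarith) (by rw [sum_sub_distrib, hs, sum_const, nsmul_eq_mul, sub_self]) m δ hδ
  have e2 := hoeff Ω (fun ω => μ - x ω) (fun ω hω => by
    have a := abs_le.1 (hx ω hω)
    have b := abs_le.1 hμ1
    rw [abs_le]
    constructor <;> linarith) (by rw [sum_sub_distrib, hs, sum_const, nsmul_eq_mul, sub_self]) m δ hδ
  have h1 : (Smp Ω m).filter (fun w => δ < dev Ω m x w) ⊆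
      ((Smp Ω m).filter fun w => δ * m ≤ ∑ l, (x (w l) - μ)) ∪ ((Smp Ω m).filter fun w => δ * m ≤ ∑ l, (μ - x (w l))) := by
    intro w hw
    obtain ⟨hw1, hw2⟩ := mem_filter.1 hw
    have a1 : ∑ l, (x (w l) - μ) = m * ((1 / m : ℝ) * ∑ l, x (w l) - μ) := by
      rw [sum_sub_distrib, sum_const, card_univ, Fintype.card_fin, nsmul_eq_mul]
      field_simp
    have a2 : ∑ l, (μ - x (w l)) = -(m * ((1 / m : ℝ) * ∑ l, x (w l) - μ)) := by
      rw [← a1, ← sum_neg_distrib]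
      refine sum_congr rfl fun l _ => ?_
      ring
    rw [mem_union, mem_filter, mem_filter, a1, a2]
    unfold dev at hw2
    rw [← hμ] at hw2
    rcases lt_abs.1 hw2 with h | h
    · left
      exact ⟨hw1, by nlinarith⟩
    · right
      exact ⟨hw1, by nlinarith⟩
  have h2 : (((Smp Ω m).filter fun w => δ < dev Ω m x w).card : ℝ) ≤
      (((Smp Ω m).filter fun w => δ * m ≤ ∑ l, (x (w l) - μ)).card : ℝ) + ((Smp Ω m).filter fun w => δ * m ≤ ∑ l, (μ - x (w l))).card := by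
    exact_mod_cast (card_le_card h1).trans (card_union_le _ _)
  linarith

/-- the union bound for a finite family of tests -/
lemma tests {ι κ : Type} (Ω : Finset ι) (hΩ : Ω.Nonempty) (J : Finset κ) (x : κ → ι → ℝ)
    (hx : ∀ j ∈ J, ∀ ω ∈ Ω, |x j ω| ≤ 1) (m : ℕ) (hm : 1 ≤ m) (δ : ℝ) (hδ : 0 ≤ δ) :
    ∃ B : Finset (Fin m → ι), (B.card : ℝ) ≤ J.card * (2 * (Ω.card ^ m * Real.exp (-(δ ^ 2 * m / 8)))) ∧
      ∀ w ∈ Smp Ω m, w ∉ B → ∀ j ∈ J, dev Ω m (x j) w ≤ δ := by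
  classical
  refine ⟨J.biUnion fun j => (Smp Ω m).filter fun w => δ < dev Ω m (x j) w, ?_, ?_⟩
  · calc ((J.biUnion fun j => (Smp Ω m).filter fun w => δ < dev Ω m (x j) w).card : ℝ)
        ≤ ((∑ j ∈ J, ((Smp Ω m).filter fun w => δ < dev Ω m (x j) w).card : ℕ) : ℝ) := by
          exact_mod_cast card_biUnion_le
      _ = ∑ j ∈ J, (((Smp Ω m).filter fun w => δ < dev Ω m (x j) w).card : ℝ) := by rw [Nat.cast_sum]
      _ ≤ ∑ _j ∈ J, (2 * (Ω.card ^ m * Real.exp (-(δ ^ 2 * m / 8)))) :=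
          sum_le_sum fun j hj => by
            have := hoeff2 Ω hΩ (x j) (hx j hj) m hm δ hδ
            convert this
      _ = _ := by rw [sum_const, nsmul_eq_mul]
  · intro w hw hwB j hj
    by_contra hcon
    exact hwB (mem_biUnion.2 ⟨j, hj, mem_filter.2 ⟨hw, lt_of_not_ge hcon⟩⟩)

end Pool.Agent.Run7.h880.MK
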