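import Mathlib
import Pool.Agent.Run7.h880.MK.RndA

/-! Random samples: multiplicative Chernoff bound for the number of hits of a subset, and the probability of no hit. -/

set_option autoImplicit false

namespace Pool.Agent.Run7.h880.MK

open Finset

/-- number of the sampled elements in `A` -/
noncomputable def hits {ι : Type} [DecidableEq ι] (A : Finset ι) {m : ℕ} (w : Fin m → ι) : ℕ :=
  (univ.filter fun l => w l ∈ A).card

lemma hits_eq {ι : Type} [DecidableEq ι] (A : Finset ι) {m : ℕ} (w : Fin m → ι) :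
    (hits A w : ℝ) = ∑ l, (if w l ∈ A then (1 : ℝ) else 0) := by
  unfold hits
  rw [sum_boole]

lemma mgf_bound {ι : Type} [DecidableEq ι] (Ω A : Finset ι) (hA : A ⊆ Ω) (t : ℝ) (ht : |t| ≤ 1) :
    ∑ ω ∈ Ω, Real.exp (t * (if ω ∈ A then (1 : ℝ) else 0)) ≤ Ω.card * Real.exp ((A.card : ℝ) / Ω.card * (t + t ^ 2)) := by
  rcases Ω.eq_empty_or_nonempty with h0 | hne
  · subst h0; simp
  have hc : (0 : ℝ) < Ω.card := by exact_mod_cast card_pos.2 hne
  have h1 : ∑ ω ∈ Ω, Real.exp (t * (if ω ∈ A then (1 : ℝ) else 0)) = Ω.card + A.card * (Real.exp t - 1) := by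
    have h2 : ∀ ω ∈ Ω, Real.exp (t * (if ω ∈ A then (1 : ℝ) else 0)) = 1 + (Real.exp t - 1) * (if ω ∈ A then (1 : ℝ) else 0) := by
      intro ω _
      split_ifs
      · rw [mul_one]; ring
      · rw [mul_zero, Real.exp_zero]; ring
    rw [sum_congr rfl h2, sum_add_distrib, ← mul_sum, sum_boole, sum_const, nsmul_eq_mul, mul_one]
    have h3 : Ω.filter (fun ω => ω ∈ A) = A := by
      ext ω
      rw [mem_filter]
      exact ⟨fun h => h.2, fun h => ⟨hA h, h⟩⟩
    rw [h3]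
    ring
  have h4 : Real.exp t - 1 ≤ t + t ^ 2 := by
    have := Real.abs_exp_sub_one_sub_id_le ht
    have := (abs_le.1 this).2
    linarith
  rw [h1]
  have h5 : 1 + (A.card : ℝ) / Ω.card * (t + t ^ 2) ≤ Real.exp ((A.card : ℝ) / Ω.card * (t + t ^ 2)) := by
    have := Real.add_one_le_exp ((A.card : ℝ) / Ω.card * (t + t ^ 2))
    linarith
  calc (Ω.card : ℝ) + A.card * (Real.exp t - 1) ≤ Ω.card + A.card * (t + t ^ 2) := by
        have := mul_le_mul_of_nonneg_left h4 (Nat.cast_nonneg A.card : (0 : ℝ) ≤ A.card)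
        linarith
    _ = Ω.card * (1 + (A.card : ℝ) / Ω.card * (t + t ^ 2)) := by field_simp
    _ ≤ _ := mul_le_mul_of_nonneg_left h5 hc.le

lemma chern_one {ι : Type} [DecidableEq ι] (Ω A : Finset ι) (hA : A ⊆ Ω) (m : ℕ) (t s : ℝ) (ht : |t| ≤ 1) :
    (((Smp Ω m).filter fun w => s ≤ t * hits A w).card : ℝ) ≤
      Ω.card ^ m * Real.exp (m * ((A.card : ℝ) / Ω.card * (t + t ^ 2)) - s) := by
  classical
  have h2 : (((Smp Ω m).filter fun w => s ≤ t * hits A w).card : ℝ) ≤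
      ∑ w ∈ Smp Ω m, Real.exp (-s) * ∏ l, Real.exp (t * (if w l ∈ A then (1 : ℝ) else 0)) := by
    rw [card_eq_sum_ones, Nat.cast_sum]
    calc ∑ w ∈ (Smp Ω m).filter (fun w => s ≤ t * hits A w), ((1 : ℕ) : ℝ)
        ≤ ∑ w ∈ (Smp Ω m).filter (fun w => s ≤ t * hits A w),
            Real.exp (-s) * ∏ l, Real.exp (t * (if w l ∈ A then (1 : ℝ) else 0)) := by
          refine sum_le_sum fun w hw => ?_
          have hw := (mem_filter.1 hw).2
          rw [← Real.exp_sum, ← Real.exp_add, ← mul_sum, ← hits_eq, Nat.cast_one]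
          refine Real.one_le_exp ?_
          linarith
      _ ≤ _ := sum_le_sum_of_subset_of_nonneg (filter_subset _ _) fun _ _ _ => by positivity
  refine h2.trans ?_
  rw [← mul_sum]
  have h3 : ∑ w ∈ Smp Ω m, ∏ l, Real.exp (t * (if w l ∈ A then (1 : ℝ) else 0)) =
      (∑ ω ∈ Ω, Real.exp (t * (if ω ∈ A then (1 : ℝ) else 0))) ^ m := by
    have := Finset.prod_univ_sum (fun _ : Fin m => Ω) (fun (_ : Fin m) (ω : ι) => Real.exp (t * (if ω ∈ A then (1 : ℝ) else 0)))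
    rw [prod_const, card_univ, Fintype.card_fin] at this
    rw [this]
    rfl
  rw [h3]
  calc Real.exp (-s) * (∑ ω ∈ Ω, Real.exp (t * (if ω ∈ A then (1 : ℝ) else 0))) ^ m
      ≤ Real.exp (-s) * (Ω.card * Real.exp ((A.card : ℝ) / Ω.card * (t + t ^ 2))) ^ m := by
        refine mul_le_mul_of_nonneg_left (pow_le_pow_left₀ (sum_nonneg fun _ _ => (Real.exp_pos _).le) (mgf_bound Ω A hA t ht) m)
          (Real.exp_pos _).le
    _ = _ := by
        rw [mul_pow, ← Real.exp_nat_mul, sub_eq_add_neg, Real.exp_add]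
        ring

/-- **Chernoff** -/
theorem chern {ι : Type} [DecidableEq ι] (Ω A : Finset ι) (hA : A ⊆ Ω) (m : ℕ) (δ : ℝ) (hδ : 0 ≤ δ) (hδ1 : δ ≤ 1) :
    (((Smp Ω m).filter fun w => δ * (m * ((A.card : ℝ) / Ω.card)) < |(hits A w : ℝ) - m * ((A.card : ℝ) / Ω.card)|).card : ℝ) ≤
      2 * (Ω.card ^ m * Real.exp (-(δ ^ 2 * (m * ((A.card : ℝ) / Ω.card)) / 4))) := by
  classical
  obtain ⟨M, hM⟩ : ∃ M : ℝ, M = m * ((A.card : ℝ) / Ω.card) := ⟨_, rfl⟩
  have h1 := chern_one Ω A hA m (δ / 2) (δ / 2 * ((1 + δ) * M)) (by rw [abs_of_nonneg (by linarith)]; linarith)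
  have h2 := chern_one Ω A hA m (-(δ / 2)) (-(δ / 2) * ((1 - δ) * M)) (by rw [abs_neg, abs_of_nonneg (by linarith)]; linarith)
  rw [← hM]
  have e1 : (m : ℝ) * ((A.card : ℝ) / Ω.card * (δ / 2 + (δ / 2) ^ 2)) - δ / 2 * ((1 + δ) * M) = -(δ ^ 2 * M / 4) := by
    rw [hM]; ring
  have e2 : (m : ℝ) * ((A.card : ℝ) / Ω.card * (-(δ / 2) + (-(δ / 2)) ^ 2)) - -(δ / 2) * ((1 - δ) * M) = -(δ ^ 2 * M / 4) := by
    rw [hM]; ring
  rw [e1] at h1
  rw [e2] at h2
  have h3 : (Smp Ω m).filter (fun w => δ * M < |(hits A w : ℝ) - M|) ⊆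
      ((Smp Ω m).filter fun w => δ / 2 * ((1 + δ) * M) ≤ δ / 2 * hits A w) ∪
      ((Smp Ω m).filter fun w => -(δ / 2) * ((1 - δ) * M) ≤ -(δ / 2) * hits A w) := by
    intro w hw
    obtain ⟨hw1, hw2⟩ := mem_filter.1 hw
    rw [mem_union, mem_filter, mem_filter]
    rcases lt_abs.1 hw2 with h | h
    · left
      refine ⟨hw1, mul_le_mul_of_nonneg_left ?_ (by linarith)⟩
      linarith
    · right
      refine ⟨hw1, ?_⟩
      have : (hits A w : ℝ) ≤ (1 - δ) * M := by linarith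
      nlinarith
  have h4 : (((Smp Ω m).filter (fun w => δ * M < |(hits A w : ℝ) - M|)).card : ℝ) ≤
      ((Smp Ω m).filter fun w => δ / 2 * ((1 + δ) * M) ≤ δ / 2 * hits A w).card +
      ((Smp Ω m).filter fun w => -(δ / 2) * ((1 - δ) * M) ≤ -(δ / 2) * hits A w).card := by
    exact_mod_cast (card_le_card h3).trans (card_union_le _ _)
  linarith

/-- no hit -/
theorem nohit {ι : Type} [DecidableEq ι] (Ω A : Finset ι) (hA : A ⊆ Ω) (m : ℕ) :
    (((Smp Ω m).filter fun w => ∀ l, w l ∉ A).card : ℝ) ≤ Ω.card ^ m * Real.exp (-(m * ((A.card : ℝ) / Ω.card))) := by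
  classical
  have h1 : (Smp Ω m).filter (fun w => ∀ l, w l ∉ A) = Smp (Ω \ A) m := by
    ext w
    rw [mem_filter, Smp_mem, Smp_mem]
    constructor
    · rintro ⟨h1, h2⟩ l
      exact mem_sdiff.2 ⟨h1 l, h2 l⟩
    · intro h
      exact ⟨fun l => (mem_sdiff.1 (h l)).1, fun l => (mem_sdiff.1 (h l)).2⟩
  rw [h1, Smp_card, card_sdiff_of_subset hA]
  rcases Ω.eq_empty_or_nonempty with h0 | hne
  · subst h0
    have : A = ∅ := subset_empty.1 hA
    subst this
    simp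
  have hc : (0 : ℝ) < Ω.card := by exact_mod_cast card_pos.2 hne
  rw [Nat.cast_pow, Nat.cast_sub (card_le_card hA)]
  have h2 : (Ω.card : ℝ) - A.card ≤ Ω.card * Real.exp (-((A.card : ℝ) / Ω.card)) := by
    have h3 := Real.add_one_le_exp (-((A.card : ℝ) / Ω.card))
    calc (Ω.card : ℝ) - A.card = Ω.card * (-((A.card : ℝ) / Ω.card) + 1) := by field_simp; ring
      _ ≤ _ := mul_le_mul_of_nonneg_left h3 hc.le
  have h4 : (0 : ℝ) ≤ Ω.card - A.card := by
    rw [sub_nonneg]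
    exact_mod_cast card_le_card hA
  calc ((Ω.card : ℝ) - A.card) ^ m ≤ (Ω.card * Real.exp (-((A.card : ℝ) / Ω.card))) ^ m := pow_le_pow_left₀ h4 h2 m
    _ = _ := by
        rw [mul_pow, ← Real.exp_nat_mul]
        congr 2
        ring

end Pool.Agent.Run7.h880.MK
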