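import Mathlib
import Pool.Agent.NH21.Nls.ES

/-! Project MK, prime law: the exponential sum over the primes `p ≤ H` is small away from the rationals with small denominators. -/

set_option autoImplicit false

namespace Pool.Agent.Run7.h880.MK

open Finset Filter Topology
open Pool.Agent.H807R2.Dav
open Pool.Agent.H373R2.T7
open Pool.Agent.NH21.Nls (rat_point)

/-- von Mangoldt, one length -/
theorem lam_far (U : ℕ) : ∃ T D N0 : ℕ, ∀ N : ℕ, N0 ≤ N → ∀ α : ℝ,
    (∀ k : ℕ, 1 ≤ k → (k : ℝ) ≤ Real.log N ^ T → ∀ a : ℤ, Real.log N ^ D / N < |α - a / k|) →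
    ‖∑ n ∈ Icc 1 N, ((ArithmeticFunction.vonMangoldt n : ℝ) : ℂ) * ee ((n : ℝ) * α)‖ ≤ N / Real.log N ^ U := by
  obtain ⟨b, N1, hminor⟩ := minor_primes (U + 1)
  obtain ⟨N2, hrat⟩ := rat_point b (2 * b + U + 3)
  obtain ⟨N3, hL⟩ := ev_L' 16
  obtain ⟨N4, hroot⟩ := ev_log' b 1
  refine ⟨b, U + 2, max (max N1 N2) (max (max N3 N4) 4), fun N hN α hα => ?_⟩
  have hN1 : N1 ≤ N := le_trans (le_trans (le_max_left _ _) (le_max_left _ _)) hN
  have hN2 : N2 ≤ N := le_trans (le_trans (le_max_right _ _) (le_max_left _ _)) hN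
  have hN3 : N3 ≤ N := le_trans (le_trans (le_trans (le_max_left _ _) (le_max_left _ _)) (le_max_right _ _)) hN
  have hN4' : N4 ≤ N := le_trans (le_trans (le_trans (le_max_right _ _) (le_max_left _ _)) (le_max_right _ _)) hN
  have hN4 : 4 ≤ N := le_trans (le_trans (le_max_right _ _) (le_max_right _ _)) hN
  have hL := hL N hN3
  have hroot := hroot N hN4'
  rw [one_mul] at hroot
  obtain ⟨L, hLd⟩ : ∃ L, L = Real.log N := ⟨_, rfl⟩
  rw [← hLd] at hL hroot hα ⊢
  have hL16 : 16 ≤ L := hL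
  have hL0 : 0 < L := by linarith
  have hL1 : 1 ≤ L := by linarith
  have hNr : (0 : ℝ) < N := by exact_mod_cast (by omega : 0 < N)
  have hN4r : (4 : ℝ) ≤ N := by exact_mod_cast hN4
  have hLb1 : 1 ≤ L ^ b := one_le_pow₀ (by linarith)
  have hLbN : L ^ b ≤ N / 2 := by
    have h1 : √(N : ℝ) ≤ N / 2 := by
      rw [Real.sqrt_le_left (by positivity)]
      nlinarith
    exact hroot.trans h1
  have hNU : N / L ^ (U + 1) ≤ (N / L ^ U) / 16 := by
    rw [pow_succ, div_div, div_le_div_iff₀ (by positivity) (by positivity)]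
    have : 0 < L ^ U := by positivity
    nlinarith [mul_pos hNr this]
  have hNU0 : 0 ≤ N / L ^ U := by positivity
  -- Dirichlet
  obtain ⟨Q, hQ⟩ : ∃ Q : ℕ, Q = ⌊(N : ℝ) / L ^ b⌋₊ := ⟨_, rfl⟩
  have hQ1 : 0 < Q := by
    rw [hQ]
    apply Nat.floor_pos.2
    rw [le_div_iff₀ (by positivity)]
    linarith
  obtain ⟨r, hr1, hr2⟩ := Real.exists_rat_abs_sub_le_and_den_le α hQ1
  obtain ⟨q, hq⟩ : ∃ q, q = r.den := ⟨_, rfl⟩
  have hq1 : 1 ≤ q := by rw [hq]; exact r.den_pos
  have hqr : (0 : ℝ) < q := by exact_mod_cast hq1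
  have hrr : (r : ℝ) = r.num / q := by rw [hq]; exact Rat.cast_def r
  rw [← hq] at hr1 hr2
  rw [hrr] at hr1
  have hqQ : (q : ℝ) ≤ N / L ^ b := by
    have h1 : (q : ℝ) ≤ Q := by exact_mod_cast hr2
    rw [hQ] at h1
    exact h1.trans (Nat.floor_le (by positivity))
  have hQl : (N : ℝ) / L ^ b < Q + 1 := by rw [hQ]; exact Nat.lt_floor_add_one _
  have hcop : IsCoprime r.num (q : ℤ) := by rw [hq]; exact Int.isCoprime_iff_gcd_eq_one.2 r.reduced
  have happ1 : |α - r.num / q| ≤ 1 / (q : ℝ) ^ 2 := by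
    refine hr1.trans ?_
    apply one_div_le_one_div_of_le (by positivity)
    have h1 : (q : ℝ) ≤ Q := by exact_mod_cast hr2
    nlinarith
  have happ2 : |α - r.num / q| ≤ L ^ b / (N * q) := by
    refine hr1.trans ?_
    rw [div_le_div_iff₀ (by positivity) (by positivity)]
    rw [div_lt_iff₀ (by positivity)] at hQl
    nlinarith
  by_cases hbig : L ^ b ≤ q
  · have h1 := hminor N hN1 q (by rw [← hLd]; exact hbig) (by rw [← hLd]; exact hqQ) r.num hcop α happ1
    rw [← hLd] at h1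
    linarith
  · push Not at hbig
    -- the numerator as a natural number
    obtain ⟨n, t, hn, hncop⟩ : ∃ (n : ℕ) (t : ℤ), r.num = n + q * t ∧ n.Coprime q := by
      refine ⟨(r.num % q).toNat, r.num / q, ?_, ?_⟩
      · have h1 : 0 ≤ r.num % q := Int.emod_nonneg _ (by exact_mod_cast (by omega : q ≠ 0))
        rw [Int.toNat_of_nonneg h1]
        exact (Int.emod_add_mul_ediv _ _).symm
      · have h1 : 0 ≤ r.num % q := Int.emod_nonneg _ (by exact_mod_cast (by omega : q ≠ 0))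
        rw [← Nat.isCoprime_iff_coprime, Int.toNat_of_nonneg h1]
        have h2 : r.num % q = r.num + q * (-(r.num / q)) := by
          have := Int.emod_add_mul_ediv r.num q
          linarith
        rw [h2]
        exact (IsCoprime.add_mul_left_left_iff).2 hcop
    have hfar := hα q hq1 hbig.le r.num
    obtain ⟨β, hβ⟩ : ∃ β, β = α - r.num / q := ⟨_, rfl⟩
    rw [← hβ] at happ2 happ1 hfar
    have hβ1 : |β| ≤ L ^ b / (N * q) := happ2
    have hβ2 : |β| ≤ 1 / 2 := by
      refine hβ1.trans ?_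
      rw [div_le_iff₀ (by positivity)]
      have : (1 : ℝ) ≤ q := by exact_mod_cast hq1
      nlinarith
    have hβ0 : 0 < |β| := lt_of_le_of_lt (by positivity) hfar
    obtain ⟨κ, hκ⟩ : ∃ κ : ℂ, κ = ((ArithmeticFunction.moebius q : ℤ) : ℂ) / (Nat.totient q : ℂ) := ⟨_, rfl⟩
    have hφ : (0 : ℝ) < Nat.totient q := by exact_mod_cast Nat.totient_pos.2 hq1
    have hφ1 : (1 : ℝ) ≤ Nat.totient q := by exact_mod_cast Nat.totient_pos.2 hq1
    have hκn : ‖κ‖ ≤ 1 := by
      rw [hκ, norm_div, Complex.norm_natCast, Complex.norm_intCast, div_le_one hφ]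
      refine le_trans ?_ hφ1
      exact_mod_cast ArithmeticFunction.abs_moebius_le_one
    obtain ⟨F, hF⟩ : ∃ F : ℕ → ℂ, F = fun m => ((ArithmeticFunction.vonMangoldt m : ℝ) : ℂ) * ee ((m : ℝ) * ((n : ℝ) / q)) - κ :=
      ⟨_, rfl⟩
    have hM : ∀ y : ℕ, y ≤ N → ‖∑ m ∈ Icc 1 y, F m‖ ≤ q * (N / L ^ (2 * b + U + 3)) := by
      intro y hy
      have h1 := hrat N hN2 q n hq1 (by rw [← hLd]; exact hbig.le) hncop y hy
      rw [hF, hκ]
      rw [← hLd] at h1
      exact h1
    have h1 := abel_ee F β (q * (N / L ^ (2 * b + U + 3))) N hM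
    have h2 : ‖ee β - 1‖ ≤ 7 * |β| := by
      have h3 := dd_le β
      unfold dd at h3
      rw [← norm_neg, neg_sub]
      have h4 := Real.pi_lt_d2
      nlinarith [abs_nonneg β, norm_nonneg (1 - ee β)]
    have h3 : q * (N / L ^ (2 * b + U + 3)) * (1 + N * ‖ee β - 1‖) ≤ N / L ^ (U + 1) := by
      have h4 : N * ‖ee β - 1‖ ≤ 7 * L ^ b / q := by
        calc N * ‖ee β - 1‖ ≤ N * (7 * (L ^ b / (N * q))) := by
              apply mul_le_mul_of_nonneg_left _ hNr.le
              linarith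
          _ = 7 * L ^ b / q := by field_simp
      have h5 : q * (1 + N * ‖ee β - 1‖) ≤ 8 * L ^ b := by
        calc q * (1 + N * ‖ee β - 1‖) ≤ q * (1 + 7 * L ^ b / q) := by
              apply mul_le_mul_of_nonneg_left _ hqr.le
              linarith
          _ = q + 7 * L ^ b := by field_simp
          _ ≤ 8 * L ^ b := by linarith
      calc q * (N / L ^ (2 * b + U + 3)) * (1 + N * ‖ee β - 1‖) = (N / L ^ (2 * b + U + 3)) * (q * (1 + N * ‖ee β - 1‖)) := by ring
        _ ≤ (N / L ^ (2 * b + U + 3)) * (8 * L ^ b) := mul_le_mul_of_nonneg_left h5 (by positivity)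
        _ = (N / L ^ (U + 1)) * (8 / L ^ (b + 2)) := by
            have : L ^ (2 * b + U + 3) = L ^ b * L ^ (b + 2) * L ^ (U + 1) := by ring
            rw [this]
            field_simp
        _ ≤ (N / L ^ (U + 1)) * 1 := by
            apply mul_le_mul_of_nonneg_left _ (by positivity)
            rw [div_le_one (by positivity)]
            have : L ^ (b + 2) = L ^ b * L * L := by ring
            rw [this]
            have h9 : 16 ≤ L ^ b * L := by nlinarith
            nlinarith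
        _ = N / L ^ (U + 1) := mul_one _
    -- the main term
    have h4 : ∑ m ∈ Icc 1 N, ((ArithmeticFunction.vonMangoldt m : ℝ) : ℂ) * ee ((m : ℝ) * α) =
        ∑ m ∈ Icc 1 N, F m * ee (m * β) + κ * ∑ m ∈ Ico 1 (N + 1), ee ((m : ℝ) * β) := by
      have e1 : Ico 1 (N + 1) = Icc 1 N := by ext m; rw [mem_Ico, mem_Icc]; omega
      rw [e1, mul_sum, ← sum_add_distrib]
      refine sum_congr rfl fun m _ => ?_
      have e2 : (m : ℝ) * α = (m : ℝ) * ((n : ℝ) / q) + (m : ℝ) * β + ((m * t : ℤ) : ℝ) := by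
        rw [hβ, hn]
        push_cast
        field_simp
        ring
      rw [e2, ee_add_int, ee_add, hF]
      ring
    have hdd : 4 * |β| ≤ dd β := by
      have h6 : dd β = dd |β| := by
        rcases abs_choice β with h | h
        · rw [h]
        · rw [h, dd_neg]
      rw [h6]
      have h7 := dd_ge (abs_nonneg β) (by linarith : |β| ≤ 1)
      rwa [min_eq_left (by linarith)] at h7
    have h6 := geo_bound 1 (N + 1) (by omega) (M := N) (by push_cast; linarith) β
    have h7 := h6.trans (KK_le' hNr.le (by positivity) hdd)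
    have h8 : 3 / (4 * |β|) ≤ N / L ^ (U + 1) := by
      have h9 : L ^ (U + 2) / N ≤ |β| := hfar.le
      rw [div_le_iff₀ hNr] at h9
      rw [div_le_div_iff₀ (by positivity) (by positivity)]
      have h10 : L ^ (U + 2) = L ^ (U + 1) * L := by ring
      rw [h10] at h9
      have h11 : 0 < L ^ (U + 1) := by positivity
      nlinarith
    rw [h4]
    refine (norm_add_le _ _).trans ?_
    rw [norm_mul]
    have h9 : ‖κ‖ * ‖∑ m ∈ Ico 1 (N + 1), ee ((m : ℝ) * β)‖ ≤ 1 * (N / L ^ (U + 1)) :=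
      mul_le_mul hκn (h7.trans h8) (norm_nonneg _) zero_le_one
    linarith [h1.trans h3]

/-- finite partial summation with a decreasing weight -/
lemma abel_anti (F : ℕ → ℂ) (g : ℕ → ℝ) (hg : Antitone g) (hg0 : ∀ n, 0 ≤ g n) (M0 : ℝ) (x : ℕ)
    (hA : ∀ y : ℕ, y ≤ x → ‖∑ n ∈ Icc 1 y, F n‖ ≤ M0) :
    ‖∑ n ∈ Icc 1 x, F n * (g n : ℂ)‖ ≤ M0 * g 0 := by
  have hM0 : 0 ≤ M0 := (norm_nonneg _).trans (hA 0 (Nat.zero_le _))
  have key : ∀ y : ℕ, y ≤ x → ‖∑ n ∈ Icc 1 y, F n * (g n : ℂ) - (∑ n ∈ Icc 1 y, F n) * (g y : ℂ)‖ ≤ M0 * (g 0 - g y) := by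
    intro y
    induction y with
    | zero => intro _; simp
    | succ y ih =>
      intro hy
      have h1 := ih (by omega)
      have h2 := hA y (by omega)
      rw [sum_Icc_succ_top (by omega), sum_Icc_succ_top (by omega)]
      have e : ∑ k ∈ Icc 1 y, F k * (g k : ℂ) + F (y + 1) * (g (y + 1) : ℂ) - (∑ k ∈ Icc 1 y, F k + F (y + 1)) * (g (y + 1) : ℂ) =
          (∑ k ∈ Icc 1 y, F k * (g k : ℂ) - (∑ k ∈ Icc 1 y, F k) * (g y : ℂ)) +
            (∑ k ∈ Icc 1 y, F k) * ((g y - g (y + 1) : ℝ) : ℂ) := by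
        push_cast
        ring
      rw [e]
      refine (norm_add_le _ _).trans ?_
      have h3 : 0 ≤ g y - g (y + 1) := sub_nonneg.2 (hg (Nat.le_succ y))
      rw [norm_mul, Complex.norm_real, Real.norm_eq_abs, abs_of_nonneg h3]
      have h4 := mul_le_mul_of_nonneg_right h2 h3
      nlinarith
  have h1 := key x le_rfl
  have h2 := hA x le_rfl
  have e : ∑ n ∈ Icc 1 x, F n * (g n : ℂ) = (∑ n ∈ Icc 1 x, F n * (g n : ℂ) - (∑ n ∈ Icc 1 x, F n) * (g x : ℂ)) +
      (∑ n ∈ Icc 1 x, F n) * (g x : ℂ) := by ring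
  rw [e]
  refine (norm_add_le _ _).trans ?_
  rw [norm_mul, Complex.norm_real, Real.norm_eq_abs, abs_of_nonneg (hg0 x)]
  have h4 := mul_le_mul_of_nonneg_right h2 (hg0 x)
  nlinarith

/-- the primes up to `H` -/
def PH (H : ℕ) : Finset ℕ := (Icc 1 H).filter Nat.Prime

/-- the weight `1 / log n` -/
noncomputable def gl (n : ℕ) : ℝ := 1 / Real.log (max n 2 : ℕ)

lemma gl_nonneg (n : ℕ) : 0 ≤ gl n := by
  unfold gl
  have : 0 ≤ Real.log ((max n 2 : ℕ) : ℝ) := Real.log_natCast_nonneg _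
  positivity

lemma gl_anti : Antitone gl := by
  intro a b hab
  unfold gl
  have h2 : (2 : ℝ) ≤ ((max a 2 : ℕ) : ℝ) := by exact_mod_cast le_max_right _ _
  have h3 : ((max a 2 : ℕ) : ℝ) ≤ ((max b 2 : ℕ) : ℝ) := by exact_mod_cast max_le_max_right 2 hab
  exact one_div_le_one_div_of_le (Real.log_pos (by linarith)) (Real.log_le_log (by linarith) h3)

lemma gl_zero : gl 0 ≤ 3 / 2 := by
  unfold gl
  have : ((max 0 2 : ℕ) : ℝ) = 2 := by norm_num
  rw [this, div_le_iff₀ (Real.log_pos (by norm_num))]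
  have := Real.log_two_gt_d9
  linarith

lemma gl_prime {p : ℕ} (hp : p.Prime) : ArithmeticFunction.vonMangoldt p * gl p = 1 := by
  unfold gl
  have h2 := hp.two_le
  rw [ArithmeticFunction.vonMangoldt_apply_prime hp, max_eq_left h2, mul_one_div_cancel]
  exact (Real.log_pos (by exact_mod_cast h2)).ne'

end Pool.Agent.Run7.h880.MK
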