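import Mathlib
import Pool.Agent.Run7.h880.MK.Prl

/-! Project MK, prime law, second part. -/

set_option autoImplicit false

namespace Pool.Agent.Run7.h880.MK

open Finset Filter Topology
open Pool.Agent.H807R2.Dav
open Pool.Agent.H373R2.T7

lemma PH_card (H : ℕ) : (PH H).card = Nat.primeCounting H := by
  unfold PH
  rw [Nat.primeCounting, Nat.primeCounting', Nat.count_eq_card_filter_range]
  congr 1
  ext p
  rw [mem_filter, mem_filter, mem_Icc, mem_range]
  constructor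
  · rintro ⟨h1, h2⟩
    exact ⟨by omega, h2⟩
  · rintro ⟨h1, h2⟩
    exact ⟨⟨h2.one_lt.le, by omega⟩, h2⟩

lemma PH_ge : ∃ N0 : ℕ, ∀ H : ℕ, N0 ≤ H → (H : ℝ) / (2 * Real.log H) ≤ (PH H).card := by
  obtain ⟨n1, h1⟩ := ev_log' 1 16
  obtain ⟨n2, h2⟩ := ev_L' 1
  refine ⟨n1 + n2 + 16, fun H hH => ?_⟩
  have h3 := h1 H (by omega)
  have h4 := h2 H (by omega)
  have hp := Chebyshev.pi_ge H
  rw [PH_card]
  refine le_trans ?_ hp
  have hH0 : (16 : ℝ) ≤ H := by exact_mod_cast (by omega : 16 ≤ H)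
  have hs : √(H : ℝ) * √(H : ℝ) = H := Real.mul_self_sqrt (by linarith)
  have hl1 : Real.log ((H : ℝ) + 1) ≤ 2 * Real.log H := by
    have : Real.log ((H : ℝ) ^ 2) = 2 * Real.log H := by rw [Real.log_pow]; norm_num
    rw [← this]
    exact Real.log_le_log (by linarith) (by nlinarith)
  rw [div_le_div_iff₀ (by linarith) (by linarith)]
  have h5 : Real.log H ≤ √(H : ℝ) / 16 := by
    rw [le_div_iff₀ (by norm_num)]
    rw [pow_one] at h3
    linarith
  have h6 : √(H : ℝ) ≤ H := by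
    rw [Real.sqrt_le_left (by linarith)]
    nlinarith
  have h7 := Real.log_two_gt_d9
  have h8 : (H : ℝ) ≤ ((H : ℝ) * Real.log 2 - Real.log ((H : ℝ) + 1)) * 2 := by
    nlinarith
  nlinarith

lemma lam_sum_le (f : ℕ → ℂ) (hf : ∀ n, ‖f n‖ ≤ 1) (y : ℕ) :
    ‖∑ n ∈ Icc 1 y, ((ArithmeticFunction.vonMangoldt n : ℝ) : ℂ) * f n‖ ≤ 6 * y := by
  refine (norm_sum_le _ _).trans ?_
  refine le_trans ?_ (lam1_le y)
  unfold lam1
  refine sum_le_sum fun n _ => ?_
  rw [norm_mul, Complex.norm_real, Real.norm_eq_abs, abs_of_nonneg ArithmeticFunction.vonMangoldt_nonneg]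
  have := hf n
  have h0 : 0 ≤ ArithmeticFunction.vonMangoldt n := ArithmeticFunction.vonMangoldt_nonneg
  nlinarith

/-- the exponential sum over primes -/
theorem prime_far (V : ℕ) : ∃ T D N0 : ℕ, ∀ H : ℕ, N0 ≤ H → ∀ α : ℝ,
    (∀ k : ℕ, 1 ≤ k → (k : ℝ) ≤ Real.log H ^ T → ∀ a : ℤ, Real.log H ^ D / H < |α - a / k|) →
    ‖∑ p ∈ PH H, ee ((p : ℝ) * α)‖ ≤ (PH H).card / Real.log H ^ V := by
  obtain ⟨T, D, N1, h1⟩ := lam_far (V + 4)
  obtain ⟨N2, h2⟩ := ev_log' (V + 5) 1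
  obtain ⟨N3, h3⟩ := ev_L' (2 ^ (V + 4) + 10)
  obtain ⟨N4, h4⟩ := PH_ge
  refine ⟨T, D + V + 4, N1 ^ 2 + N2 + N3 + N4 + 4, fun H hH α hα => ?_⟩
  have hN1 : N1 ^ 2 ≤ H := by omega
  have h2 := h2 H (by omega)
  have h3 := h3 H (by omega)
  have h4 := h4 H (by omega)
  rw [one_mul] at h2
  obtain ⟨L, hL⟩ : ∃ L, L = Real.log (H : ℝ) := ⟨_, rfl⟩
  rw [← hL] at h2 h3 h4 hα ⊢
  have hp0 : (0 : ℝ) < 2 ^ (V + 4) := by positivity
  have hL10 : 10 ≤ L := by linarith
  have hL1 : 1 ≤ L := by linarith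
  have hL0 : 0 < L := by linarith
  have hLp : (2 : ℝ) ^ (V + 4) ≤ L := by linarith
  have hHr : (4 : ℝ) ≤ H := by exact_mod_cast (by omega : 4 ≤ H)
  have hH0 : (0 : ℝ) < H := by linarith
  have hs : √(H : ℝ) * √(H : ℝ) = H := Real.mul_self_sqrt hH0.le
  have hs0 : 0 < √(H : ℝ) := Real.sqrt_pos.2 hH0
  obtain ⟨M0, hM0⟩ : ∃ M0 : ℝ, M0 = H / L ^ (V + 3) := ⟨_, rfl⟩
  have hM00 : 0 ≤ M0 := by rw [hM0]; positivity
  have hM0' : H / L ^ (V + 4) * L = M0 := by
    rw [hM0, pow_succ L (V + 3)]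
    field_simp
  -- all lengths
  have hA : ∀ y : ℕ, y ≤ H → ‖∑ n ∈ Icc 1 y, ((ArithmeticFunction.vonMangoldt n : ℝ) : ℂ) * ee ((n : ℝ) * α)‖ ≤ M0 := by
    intro y hy
    have hyH : (y : ℝ) ≤ H := by exact_mod_cast hy
    rcases lt_or_ge (y : ℝ) (H / L ^ (V + 4)) with hs1 | hs1
    · refine (lam_sum_le (fun n => ee ((n : ℝ) * α)) (fun n => (norm_ee _).le) y).trans ?_
      rw [← hM0']
      have : 0 ≤ H / L ^ (V + 4) := by positivity
      nlinarith
    · have hys : √(H : ℝ) ≤ y := by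
        refine le_trans ?_ hs1
        rw [le_div_iff₀ (by positivity)]
        have : L ^ (V + 4) ≤ L ^ (V + 5) := pow_le_pow_right₀ hL1 (by omega)
        nlinarith
      have hyN : N1 ≤ y := by
        have : (N1 : ℝ) ≤ √(H : ℝ) := Real.le_sqrt_of_sq_le (by exact_mod_cast hN1)
        exact_mod_cast this.trans hys
      have hy0 : (0 : ℝ) < y := by linarith
      have hly : Real.log y ≤ L := by rw [hL]; exact Real.log_le_log hy0 hyH
      have hly2 : L / 2 ≤ Real.log y := by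
        have e1 : Real.log (√(H : ℝ)) = L / 2 := by rw [Real.log_sqrt hH0.le, hL]
        rw [← e1]
        exact Real.log_le_log hs0 hys
      have hly0 : 0 < Real.log y := by linarith
      have h5 := h1 y hyN α (by
        intro k hk1 hk2 a
        refine lt_of_le_of_lt ?_ (hα k hk1 (hk2.trans (pow_le_pow_left₀ hly0.le hly T)) a)
        rw [div_le_div_iff₀ hy0 hH0]
        rw [div_le_iff₀ (by positivity)] at hs1
        calc Real.log y ^ D * H ≤ L ^ D * (y * L ^ (V + 4)) := by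
              refine mul_le_mul (pow_le_pow_left₀ hly0.le hly D) hs1 hH0.le (by positivity)
          _ = L ^ (D + V + 4) * y := by ring)
      refine h5.trans ?_
      calc (y : ℝ) / Real.log y ^ (V + 4) ≤ H / (L / 2) ^ (V + 4) := by
            refine div_le_div₀ hH0.le hyH (by positivity) (pow_le_pow_left₀ (by positivity) hly2 _)
        _ = H / L ^ (V + 4) * 2 ^ (V + 4) := by rw [div_pow]; field_simp
        _ ≤ H / L ^ (V + 4) * L := mul_le_mul_of_nonneg_left hLp (by positivity)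
        _ = M0 := hM0'
  have h5 := abel_anti _ gl gl_anti gl_nonneg M0 H hA
  -- prime powers
  have h6 : ∑ p ∈ PH H, ee ((p : ℝ) * α) = ∑ n ∈ Icc 1 H, ((ArithmeticFunction.vonMangoldt n : ℝ) : ℂ) * ee ((n : ℝ) * α) * (gl n : ℂ) -
      ∑ n ∈ (Icc 1 H).filter (fun n => ¬ n.Prime), ((ArithmeticFunction.vonMangoldt n : ℝ) : ℂ) * ee ((n : ℝ) * α) * (gl n : ℂ) := by
    rw [← sum_filter_add_sum_filter_not (Icc 1 H) Nat.Prime, add_sub_cancel_right]
    unfold PH
    refine sum_congr rfl fun p hp => ?_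
    have h7 := gl_prime (mem_filter.1 hp).2
    have h8 : ((ArithmeticFunction.vonMangoldt p : ℝ) : ℂ) * (gl p : ℂ) = 1 := by exact_mod_cast h7
    calc ee ((p : ℝ) * α) = ((ArithmeticFunction.vonMangoldt p : ℝ) : ℂ) * (gl p : ℂ) * ee ((p : ℝ) * α) := by rw [h8, one_mul]
      _ = _ := by ring
  have h7 : ‖∑ n ∈ (Icc 1 H).filter (fun n => ¬ n.Prime), ((ArithmeticFunction.vonMangoldt n : ℝ) : ℂ) * ee ((n : ℝ) * α) * (gl n : ℂ)‖ ≤
      3 * (√(H : ℝ) * L) := by
    have h8 : ∑ n ∈ (Icc 1 H).filter (fun n => ¬ n.Prime), ArithmeticFunction.vonMangoldt n ≤ 2 * √(H : ℝ) * L := by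
      have h9 := Chebyshev.psi_sub_theta_le (x := (H : ℝ)) (by linarith)
      have h10 := Chebyshev.psi_sub_theta_eq_sum_not_prime (H : ℝ)
      rw [h10, Nat.floor_natCast, ← hL] at h9
      refine le_trans (le_of_eq ?_) h9
      refine sum_congr ?_ fun _ _ => rfl
      ext n
      simp only [mem_filter, mem_Icc, mem_Ioc]
      constructor
      · rintro ⟨⟨h1, h2⟩, h3⟩
        exact ⟨⟨by omega, h2⟩, h3⟩
      · rintro ⟨⟨h1, h2⟩, h3⟩
        exact ⟨⟨by omega, h2⟩, h3⟩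
    refine (norm_sum_le _ _).trans ?_
    calc ∑ n ∈ (Icc 1 H).filter (fun n => ¬ n.Prime), ‖((ArithmeticFunction.vonMangoldt n : ℝ) : ℂ) * ee ((n : ℝ) * α) * (gl n : ℂ)‖
        ≤ ∑ n ∈ (Icc 1 H).filter (fun n => ¬ n.Prime), ArithmeticFunction.vonMangoldt n * (3 / 2) := by
          refine sum_le_sum fun n _ => ?_
          have h0 : 0 ≤ ArithmeticFunction.vonMangoldt n := ArithmeticFunction.vonMangoldt_nonneg
          rw [norm_mul, norm_mul, norm_ee, mul_one, Complex.norm_real, Complex.norm_real, Real.norm_eq_abs, Real.norm_eq_abs,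
            abs_of_nonneg h0, abs_of_nonneg (gl_nonneg n)]
          exact mul_le_mul_of_nonneg_left ((gl_anti (Nat.zero_le n)).trans gl_zero) h0
      _ ≤ (2 * √(H : ℝ) * L) * (3 / 2) := by
          rw [← sum_mul]
          exact mul_le_mul_of_nonneg_right h8 (by norm_num)
      _ = 3 * (√(H : ℝ) * L) := by ring
  rw [h6]
  refine (norm_sub_le _ _).trans ?_
  have h8 : M0 * gl 0 ≤ M0 * (3 / 2) := mul_le_mul_of_nonneg_left gl_zero hM00
  have h9 : √(H : ℝ) * L ≤ M0 / L := by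
    rw [hM0, div_div, le_div_iff₀ (by positivity)]
    calc √(H : ℝ) * L * (L ^ (V + 3) * L) = √(H : ℝ) * L ^ (V + 5) := by ring
      _ ≤ √(H : ℝ) * √(H : ℝ) := mul_le_mul_of_nonneg_left h2 hs0.le
      _ = H := hs
  have h10 : M0 / L ≤ M0 / 10 := div_le_div_of_nonneg_left hM00 (by norm_num) hL10
  have h11 : M0 * 2 ≤ (PH H).card / L ^ V := by
    have h12 : M0 * (L / 2) ≤ (PH H).card / L ^ V * (1 / L) * L / 1 := by
      have e1 : M0 * (L / 2) = (H / (2 * L)) / L ^ (V + 1) := by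
        rw [hM0]
        have : L ^ (V + 3) = L ^ (V + 1) * L * L := by ring
        rw [this]
        field_simp
      have e2 : ((PH H).card : ℝ) / L ^ V * (1 / L) * L / 1 = (PH H).card / L ^ V := by field_simp
      rw [e1, e2]
      refine (div_le_div_of_nonneg_right h4 (by positivity)).trans ?_
      exact div_le_div_of_nonneg_left (Nat.cast_nonneg _) (by positivity) (pow_le_pow_right₀ hL1 (by omega))
    have e2 : ((PH H).card : ℝ) / L ^ V * (1 / L) * L / 1 = (PH H).card / L ^ V := by field_simp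
    rw [e2] at h12
    nlinarith
  linarith

/-- the law of primes for shifts: `N^(1/3) ≤ H ≤ N`, the logarithms of `N` -/
theorem prime_law (V : ℕ) : ∃ T D N0 : ℕ, ∀ N : ℕ, N0 ≤ N → ∀ H : ℕ, (N : ℝ) ^ (1 / 3 : ℝ) ≤ H → H ≤ N → ∀ α : ℝ,
    (∀ k : ℕ, 1 ≤ k → (k : ℝ) ≤ Real.log N ^ T → ∀ a : ℤ, Real.log N ^ D / H < |α - a / k|) →
    ‖∑ p ∈ PH H, ee ((p : ℝ) * α)‖ ≤ (PH H).card / Real.log N ^ V := by
  obtain ⟨T, D, N1, h1⟩ := prime_far (V + 1)
  obtain ⟨N3, h3⟩ := ev_L' (3 ^ (V + 1) + 10)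
  refine ⟨T, D, N1 ^ 3 + N3 + 4, fun N hN H hH1 hH2 α hα => ?_⟩
  have h3 := h3 N (by omega)
  have hN0 : (4 : ℝ) ≤ N := by exact_mod_cast (by omega : 4 ≤ N)
  have hp0 : (0 : ℝ) < 3 ^ (V + 1) := by positivity
  have hc : (N1 : ℝ) ≤ (N : ℝ) ^ (1 / 3 : ℝ) := by
    have e : (N1 : ℝ) = ((N1 : ℝ) ^ 3) ^ (1 / 3 : ℝ) := by
      rw [← Real.rpow_natCast, ← Real.rpow_mul (Nat.cast_nonneg _)]
      norm_num
    rw [e]
    refine Real.rpow_le_rpow (by positivity) ?_ (by norm_num)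
    exact_mod_cast (by omega : N1 ^ 3 ≤ N)
  have hHN1 : N1 ≤ H := by exact_mod_cast hc.trans hH1
  have hHN : (H : ℝ) ≤ N := by exact_mod_cast hH2
  have hH0 : (1 : ℝ) ≤ H := by
    refine le_trans ?_ hH1
    exact Real.one_le_rpow (by linarith) (by norm_num)
  have hl1 : Real.log H ≤ Real.log N := Real.log_le_log (by linarith) hHN
  have hl2 : Real.log N / 3 ≤ Real.log H := by
    have e : Real.log ((N : ℝ) ^ (1 / 3 : ℝ)) = Real.log N / 3 := by
      rw [Real.log_rpow (by linarith)]; ring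
    rw [← e]
    exact Real.log_le_log (by positivity) hH1
  have hl0 : 0 < Real.log H := by linarith
  have hL0 : 0 < Real.log N := by linarith
  have h5 := h1 H hHN1 α (by
    intro k hk1 hk2 a
    refine lt_of_le_of_lt ?_ (hα k hk1 (hk2.trans (pow_le_pow_left₀ hl0.le hl1 T)) a)
    exact div_le_div_of_nonneg_right (pow_le_pow_left₀ hl0.le hl1 D) (by linarith))
  refine h5.trans ?_
  refine div_le_div_of_nonneg_left (Nat.cast_nonneg _) (by positivity) ?_
  calc Real.log N ^ V = Real.log N ^ (V + 1) / Real.log N := by rw [pow_succ]; field_simp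
    _ ≤ Real.log N ^ (V + 1) / 3 ^ (V + 1) := by
        refine div_le_div_of_nonneg_left (by positivity) (by positivity) (by linarith)
    _ = (Real.log N / 3) ^ (V + 1) := by rw [div_pow]
    _ ≤ _ := pow_le_pow_left₀ (by positivity) hl2 _

end Pool.Agent.Run7.h880.MK
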