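import Mathlib
import Pool.Agent.H807R2.Dav1
import Pool.Agent.Run7.h880.MK.RndA

/-! Project MK, piece RND, part B: the empirical characteristic function, uniformly in the frequency. -/

set_option autoImplicit false

namespace Pool.Agent.Run7.h880.MK

open Finset
open Pool.Agent.H807R2.Dav (ee ee_eq ee_eq' norm_ee ee_add ee_int ee_add_int ee_zero)

lemma ee_diff (x y : ℝ) : ‖ee x - ee y‖ ≤ 2 * Real.pi * |x - y| := by
  have h : ee x - ee y = ee y * (ee (x - y) - 1) := by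
    have : ee x = ee y * ee (x - y) := by rw [← ee_add]; congr 1; ring
    rw [this]; ring
  rw [h, norm_mul, norm_ee, one_mul, ee_eq']
  have := Real.norm_exp_I_mul_ofReal_sub_one_le (x := 2 * Real.pi * (x - y))
  refine this.trans (le_of_eq ?_)
  rw [Real.norm_eq_abs, abs_mul, abs_of_nonneg (by positivity)]

lemma ee_re (x : ℝ) : (ee x).re = Real.cos (2 * Real.pi * x) := by
  rw [ee_eq, Complex.exp_ofReal_mul_I_re]

lemma ee_im (x : ℝ) : (ee x).im = Real.sin (2 * Real.pi * x) := by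
  rw [ee_eq, Complex.exp_ofReal_mul_I_im]

/-- the true characteristic function -/
noncomputable def cf {ι : Type} (Ω : Finset ι) (Yv : ι → ℤ) (α : ℝ) : ℂ :=
  ((1 / Ω.card : ℝ) : ℂ) * ∑ ω ∈ Ω, ee ((Yv ω : ℝ) * α)

/-- the empirical characteristic function -/
noncomputable def ecf {ι : Type} (m : ℕ) (Yv : ι → ℤ) (w : Fin m → ι) (α : ℝ) : ℂ :=
  ((1 / m : ℝ) : ℂ) * ∑ l, ee ((Yv (w l) : ℝ) * α)

/-- the two tests at the frequency `α` -/
noncomputable def tst {ι : Type} (Yv : ι → ℤ) (α : ℝ) (b : Bool) (ω : ι) : ℝ :=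
  if b then Real.cos (2 * Real.pi * ((Yv ω : ℝ) * α)) else Real.sin (2 * Real.pi * ((Yv ω : ℝ) * α))

lemma tst_le {ι : Type} (Yv : ι → ℤ) (α : ℝ) (b : Bool) (ω : ι) : |tst Yv α b ω| ≤ 1 := by
  unfold tst
  split_ifs
  · exact Real.abs_cos_le_one _
  · exact Real.abs_sin_le_one _

lemma ecf_le {ι : Type} (Ω : Finset ι) (m : ℕ) (Yv : ι → ℤ) (w : Fin m → ι) (α : ℝ) :
    ‖ecf m Yv w α - cf Ω Yv α‖ ≤ dev Ω m (tst Yv α true) w + dev Ω m (tst Yv α false) w := by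
  refine (Complex.norm_le_abs_re_add_abs_im _).trans (le_of_eq ?_)
  unfold dev ecf cf tst
  simp only [if_true, Bool.false_eq_true, if_false]
  congr 2
  · rw [Complex.sub_re, Complex.re_ofReal_mul, Complex.re_ofReal_mul, Complex.re_sum, Complex.re_sum]
    simp only [ee_re]
  · rw [Complex.sub_im, Complex.im_ofReal_mul, Complex.im_ofReal_mul, Complex.im_sum, Complex.im_sum]
    simp only [ee_im]

lemma avg_lip {κ : Type} (S : Finset κ) (c : ℝ) (hc : 0 ≤ c) (hc1 : c * S.card ≤ 1) (Y : κ → ℤ) (B : ℝ) (hB : 0 ≤ B)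
    (hY : ∀ i ∈ S, |(Y i : ℝ)| ≤ B) (α β : ℝ) :
    ‖(c : ℂ) * ∑ i ∈ S, ee ((Y i : ℝ) * α) - (c : ℂ) * ∑ i ∈ S, ee ((Y i : ℝ) * β)‖ ≤ 2 * Real.pi * (B * |α - β|) := by
  rw [← mul_sub, ← sum_sub_distrib, norm_mul, Complex.norm_real, Real.norm_eq_abs, abs_of_nonneg hc]
  calc c * ‖∑ i ∈ S, (ee ((Y i : ℝ) * α) - ee ((Y i : ℝ) * β))‖
      ≤ c * ∑ i ∈ S, (2 * Real.pi * (B * |α - β|)) := by
        refine mul_le_mul_of_nonneg_left ((norm_sum_le _ _).trans (sum_le_sum fun i hi => ?_)) hc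
        refine (ee_diff _ _).trans ?_
        refine mul_le_mul_of_nonneg_left ?_ (by positivity)
        rw [← mul_sub, abs_mul]
        exact mul_le_mul_of_nonneg_right (hY i hi) (abs_nonneg _)
    _ = (c * S.card) * (2 * Real.pi * (B * |α - β|)) := by rw [sum_const, nsmul_eq_mul]; ring
    _ ≤ 1 * (2 * Real.pi * (B * |α - β|)) := mul_le_mul_of_nonneg_right hc1 (by positivity)
    _ = _ := one_mul _

lemma cf_fract {ι : Type} (Ω : Finset ι) (Yv : ι → ℤ) (α : ℝ) : cf Ω Yv (Int.fract α) = cf Ω Yv α := by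
  unfold cf
  congr 1
  refine sum_congr rfl fun ω _ => ?_
  have h : (Yv ω : ℝ) * α = (Yv ω : ℝ) * Int.fract α + ((Yv ω * ⌊α⌋ : ℤ) : ℝ) := by
    push_cast
    rw [← mul_add, Int.fract_add_floor]
  rw [h, ee_add_int]

lemma ecf_fract {ι : Type} (m : ℕ) (Yv : ι → ℤ) (w : Fin m → ι) (α : ℝ) :
    ecf m Yv w (Int.fract α) = ecf m Yv w α := by
  unfold ecf
  congr 1
  refine sum_congr rfl fun l _ => ?_
  have h : (Yv (w l) : ℝ) * α = (Yv (w l) : ℝ) * Int.fract α + ((Yv (w l) * ⌊α⌋ : ℤ) : ℝ) := by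
    push_cast
    rw [← mul_add, Int.fract_add_floor]
  rw [h, ee_add_int]

/-- if all tests at the frequencies `j / M` are passed, the empirical characteristic function is close to the true one everywhere -/
lemma ecf_sup {ι : Type} (Ω : Finset ι) (hΩ : Ω.Nonempty) (m : ℕ) (hm : 1 ≤ m) (Yv : ι → ℤ) (B : ℝ) (hB : 0 ≤ B)
    (hY : ∀ ω ∈ Ω, |(Yv ω : ℝ)| ≤ B) (w : Fin m → ι) (hw : w ∈ Smp Ω m) (M : ℕ) (hM : 1 ≤ M) (δ : ℝ)
    (h : ∀ j ∈ range M, ∀ b : Bool, dev Ω m (tst Yv ((j : ℝ) / M) b) w ≤ δ) (α : ℝ) :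
    ‖ecf m Yv w α - cf Ω Yv α‖ ≤ 2 * δ + 4 * Real.pi * (B / M) := by
  have hM0 : (0 : ℝ) < M := by exact_mod_cast hM
  have hc : (0 : ℝ) < Ω.card := by exact_mod_cast card_pos.2 hΩ
  have hm0 : (0 : ℝ) < m := by exact_mod_cast hm
  rw [← ecf_fract, ← cf_fract]
  obtain ⟨β, hβ⟩ : ∃ β, β = Int.fract α := ⟨_, rfl⟩
  rw [← hβ]
  have hβ0 : 0 ≤ β := by rw [hβ]; exact Int.fract_nonneg α
  have hβ1 : β < 1 := by rw [hβ]; exact Int.fract_lt_one α
  obtain ⟨j, hj⟩ : ∃ j : ℕ, j = ⌊β * M⌋₊ := ⟨_, rfl⟩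
  have hj1 : (j : ℝ) ≤ β * M := by rw [hj]; exact Nat.floor_le (by positivity)
  have hj2 : β * M < j + 1 := by rw [hj]; exact Nat.lt_floor_add_one _
  have hjM : j < M := by
    have : (j : ℝ) < M := hj1.trans_lt (by nlinarith)
    exact_mod_cast this
  have hd : |β - (j : ℝ) / M| ≤ 1 / M := by
    rw [abs_le]
    constructor
    · have : 0 ≤ β - (j : ℝ) / M := by
        rw [sub_nonneg, div_le_iff₀ hM0]
        exact hj1
      have : 0 ≤ 1 / (M : ℝ) := by positivity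
      linarith
    · rw [sub_le_iff_le_add, ← add_div, le_div_iff₀ hM0]
      linarith
  have h1 : ‖ecf m Yv w β - ecf m Yv w ((j : ℝ) / M)‖ ≤ 2 * Real.pi * (B * |β - (j : ℝ) / M|) := by
    refine avg_lip (univ : Finset (Fin m)) (1 / m : ℝ) (by positivity) (by rw [card_univ, Fintype.card_fin]; field_simp; exact le_refl _)
      (fun l => Yv (w l)) B hB (fun l _ => hY _ (Smp_mem.1 hw l)) β _
  have h2 : ‖cf Ω Yv β - cf Ω Yv ((j : ℝ) / M)‖ ≤ 2 * Real.pi * (B * |β - (j : ℝ) / M|) := by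
    refine avg_lip Ω (1 / Ω.card : ℝ) (by positivity) (by field_simp; exact le_refl _) Yv B hB hY β _
  have h3 := ecf_le Ω m Yv w ((j : ℝ) / M)
  have h4 := h j (mem_range.2 hjM) true
  have h5 := h j (mem_range.2 hjM) false
  have h6 : 2 * Real.pi * (B * |β - (j : ℝ) / M|) ≤ 2 * Real.pi * (B / M) := by
    refine mul_le_mul_of_nonneg_left ?_ (by positivity)
    calc B * |β - (j : ℝ) / M| ≤ B * (1 / M) := mul_le_mul_of_nonneg_left hd hB
      _ = B / M := by ring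
  have h7 : ecf m Yv w β - cf Ω Yv β = (ecf m Yv w β - ecf m Yv w ((j : ℝ) / M)) +
      (ecf m Yv w ((j : ℝ) / M) - cf Ω Yv ((j : ℝ) / M)) - (cf Ω Yv β - cf Ω Yv ((j : ℝ) / M)) := by ring
  rw [h7]
  refine (norm_sub_le _ _).trans ?_
  have h8 := norm_add_le (ecf m Yv w β - ecf m Yv w ((j : ℝ) / M)) (ecf m Yv w ((j : ℝ) / M) - cf Ω Yv ((j : ℝ) / M))
  linarith

end Pool.Agent.Run7.h880.MK
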