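import Mathlib
import Pool.Agent.Run7.h18.MK.T31G
import Pool.Agent.Run7.h880.MK.RndB

/-! Project MK, piece RND: random polylogarithmic samples of a law of shifts with major arcs. -/

set_option autoImplicit false

namespace Pool.Agent.Run7.h880.MK

open Finset
open Pool.Agent.H807R2.Dav (ee norm_ee ee_add ee_int ee_add_int ee_zero)
open Pool.Agent.H373R2.T7 (lamz lamI lamzI Vz Vz_inv_small lamz_nonneg)
open Pool.Agent.Run7.h18.MK (S_T31G)

/-- **RND** (random samples of size `m ≥ log^W N`, from T31G): for all but a proportion `N^-A` of the `m`-tuples `w` of members of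
`Ω` the average of `Λ(n + Yv (w l))` over the sample is close to the average of the sieve model over the WHOLE of `Ω`, in mean
square over `n ≤ N`. -/
def S_RND : Prop := ∀ Bc U A : ℕ, ∃ V W : ℕ, ∀ T D : ℕ, ∃ C : ℕ, ∀ E : ℕ, ∃ N₀ : ℕ, ∀ N : ℕ, N₀ ≤ N → ∀ z : ℕ,
  Real.log N ^ T ≤ z → (z : ℝ) ≤ Real.log N ^ E →
  ∀ (ι : Type) (Ω : Finset ι) (Yv : ι → ℤ), Ω.Nonempty → (∀ ω ∈ Ω, |Yv ω| ≤ Bc * N) →
  ∀ H : ℕ, (N : ℝ) ^ (1 / 3 : ℝ) * Real.log N ^ C ≤ H → H ≤ N →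
  (∀ α : ℝ, (∀ k : ℕ, 1 ≤ k → (k : ℝ) ≤ Real.log N ^ T → ∀ a : ℤ, Real.log N ^ D / H < |α - a / k|) →
    ‖∑ ω ∈ Ω, ee ((Yv ω : ℝ) * α)‖ ≤ Ω.card / Real.log N ^ V) →
  ∀ m : ℕ, Real.log N ^ W ≤ m → ∃ Bad : Finset (Fin m → ι), (Bad.card : ℝ) ≤ (Ω.card : ℝ) ^ m / (N : ℝ) ^ A ∧
    ∀ w : Fin m → ι, (∀ l, w l ∈ Ω) → w ∉ Bad →
    ∑ n ∈ Icc 1 N, ((1 / m : ℝ) * ∑ l, lamI ((n : ℤ) + Yv (w l)) -
      (1 / Ω.card : ℝ) * ∑ ω ∈ Ω, lamzI z ((n : ℤ) + Yv ω)) ^ 2 ≤ N / Real.log N ^ U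

lemma lamzI_nonneg (z : ℕ) (k : ℤ) : 0 ≤ lamzI z k := by
  unfold lamzI
  split_ifs
  · exact lamz_nonneg _ _
  · exact le_rfl

lemma lamzI_le (z : ℕ) (k : ℤ) : lamzI z k ≤ (Vz z)⁻¹ := by
  have hV : 0 ≤ (Vz z)⁻¹ := inv_nonneg.2 (Pool.Agent.H373R2.T7.Vz_pos z).le
  unfold lamzI
  split_ifs
  · unfold lamz
    split_ifs
    · exact le_rfl
    · exact hV
  · exact hV

lemma ev_big (c : ℝ) (K : ℕ) : ∃ N₀ : ℕ, ∀ N : ℕ, N₀ ≤ N → c ≤ Real.log N ∧ Real.log N ^ K ≤ N := by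
  have hlim : Filter.Tendsto (fun N : ℕ => Real.log (N : ℝ)) Filter.atTop Filter.atTop :=
    Real.tendsto_log_atTop.comp (tendsto_natCast_atTop_atTop (R := ℝ))
  have h1 := hlim.eventually_ge_atTop c
  have h2 := (((isLittleO_log_rpow_rpow_atTop (s := 1) (K : ℝ) one_pos).bound (c := 1) one_pos).filter_mono
    le_rfl)
  have h3 := (tendsto_natCast_atTop_atTop (R := ℝ)).eventually h2
  have h4 := h3.and (h1.and (hlim.eventually_ge_atTop 0))
  obtain ⟨N₀, h⟩ := Filter.eventually_atTop.1 h4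
  refine ⟨N₀, fun N hN => ⟨(h N hN).2.1, ?_⟩⟩
  have := (h N hN).1
  rw [one_mul, Real.norm_eq_abs, Real.norm_eq_abs, Real.rpow_one, Real.rpow_natCast, abs_of_nonneg (pow_nonneg (h N hN).2.2 _),
    abs_of_nonneg (Nat.cast_nonneg _)] at this
  exact this

theorem t_RND (hT : S_T31G) : S_RND := by
  classical
  intro Bc U A
  obtain ⟨V, hT⟩ := hT Bc (U + 2)
  obtain ⟨R, hR⟩ : ∃ R, R = V + U + 3 := ⟨_, rfl⟩
  refine ⟨V + 1, 2 * R + 2, fun T D => ?_⟩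
  obtain ⟨C, hT⟩ := hT T D
  refine ⟨C, fun E => ?_⟩
  obtain ⟨N₁, hT⟩ := hT E
  obtain ⟨n1, h1⟩ := Vz_inv_small E
  obtain ⟨n2, h2⟩ := ev_big (13 * Bc + 8 * A + 100) (V + 2)
  refine ⟨N₁ + n1 + n2 + 2, fun N hN z hz1 hz2 ι Ω Yv hΩ hY H hH1 hH2 hφ m hm => ?_⟩
  have hT := hT N (by omega) z hz1 hz2 (Fin m) univ (fun _ => (1 / m : ℝ))
  obtain ⟨hL, hLN⟩ := h2 N (by omega)
  have h1 := h1 N (by omega) z
  obtain ⟨L, hLdef⟩ : ∃ L, L = Real.log (N : ℝ) := ⟨_, rfl⟩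
  rw [← hLdef] at hL hLN h1 hz1 hz2 hm hφ hT hH1 ⊢
  have hN0 : (0 : ℝ) < N := by exact_mod_cast (by omega : 0 < N)
  have hN1 : (1 : ℝ) ≤ N := by exact_mod_cast (by omega : 1 ≤ N)
  have hBc0 : (0 : ℝ) ≤ Bc := Nat.cast_nonneg _
  have hA0 : (0 : ℝ) ≤ A := Nat.cast_nonneg _
  have hL1 : 1 ≤ L := by linarith
  have hL0 : 0 < L := by linarith
  have hm1 : 1 ≤ m := by
    have : (1 : ℝ) ≤ m := (one_le_pow₀ hL1).trans hm
    exact_mod_cast this
  have hm0 : (0 : ℝ) < m := by exact_mod_cast hm1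
  have hc0 : (0 : ℝ) < Ω.card := by exact_mod_cast card_pos.2 hΩ
  have hz0 : 1 ≤ z := by
    have : (1 : ℝ) ≤ z := (one_le_pow₀ hL1).trans hz1
    exact_mod_cast this
  have hVz := h1 hz0 hz2
  -- the tests
  obtain ⟨δ, hδ⟩ : ∃ δ : ℝ, δ = 1 / L ^ R := ⟨_, rfl⟩
  have hδ0 : 0 ≤ δ := by rw [hδ]; positivity
  obtain ⟨J, hJ⟩ : ∃ J : Finset (ℕ × Bool), J = range (N ^ 2) ×ˢ univ := ⟨_, rfl⟩
  obtain ⟨B1, e1, hw1⟩ := tests Ω hΩ J (fun j => tst Yv ((j.1 : ℝ) / ((N ^ 2 : ℕ) : ℝ)) j.2) (fun j _ ω _ => tst_le _ _ _ _) m hm1 δ hδ0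
  obtain ⟨B2, e2, hw2⟩ := tests Ω hΩ (Icc 1 N) (fun (n : ℕ) ω => lamzI z ((n : ℤ) + Yv ω) / L) (fun n _ ω _ => by
      rw [abs_div, abs_of_nonneg (lamzI_nonneg _ _), abs_of_pos hL0, div_le_one hL0]
      exact (lamzI_le _ _).trans hVz) m hm1 δ hδ0
  refine ⟨B1 ∪ B2, ?_, ?_⟩
  · have hJc : (J.card : ℝ) = 2 * (N : ℝ) ^ 2 := by
      rw [hJ, card_product, card_range, card_univ, Fintype.card_bool]
      push_cast
      ring
    have hIc : ((Icc 1 N).card : ℝ) = N := by rw [Nat.card_Icc, Nat.add_sub_cancel]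
    have e3 : Real.exp (-(δ ^ 2 * m / 8)) ≤ 1 / (N : ℝ) ^ (A + 4) := by
      have a1 : (A + 4) * L ≤ δ ^ 2 * m / 8 := by
        have : L ^ 2 ≤ δ ^ 2 * m := by
          rw [hδ, div_pow, one_pow, ← pow_mul, one_div, inv_mul_eq_div, le_div_iff₀ (by positivity), ← pow_add]
          refine le_trans (le_of_eq ?_) hm
          congr 1
          ring
        nlinarith
      calc Real.exp (-(δ ^ 2 * m / 8)) ≤ Real.exp (-((A + 4) * L)) := Real.exp_le_exp.2 (by linarith)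
        _ = 1 / (N : ℝ) ^ (A + 4) := by
            rw [Real.exp_neg, one_div]
            congr 1
            rw [hLdef]
            have : ((A : ℝ) + 4) * Real.log N = ((A + 4 : ℕ) : ℝ) * Real.log N := by push_cast; ring
            rw [this, Real.exp_nat_mul, Real.exp_log hN0]
    have e4 : ((B1 ∪ B2).card : ℝ) ≤ B1.card + B2.card := by exact_mod_cast card_union_le _ _
    rw [hJc] at e1
    rw [hIc] at e2
    have hN6 : (6 : ℝ) ≤ N := by
      have : (L : ℝ) ^ (V + 2) ≤ N := hLN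
      have h6 : (L : ℝ) ≤ L ^ (V + 2) := le_self_pow₀ hL1 (by omega)
      linarith
    have hX : 0 ≤ (Ω.card : ℝ) ^ m := by positivity
    calc ((B1 ∪ B2).card : ℝ) ≤ 2 * (N : ℝ) ^ 2 * (2 * ((Ω.card : ℝ) ^ m * Real.exp (-(δ ^ 2 * m / 8)))) +
          N * (2 * ((Ω.card : ℝ) ^ m * Real.exp (-(δ ^ 2 * m / 8)))) := by linarith
      _ = (4 * (N : ℝ) ^ 2 + 2 * N) * ((Ω.card : ℝ) ^ m * Real.exp (-(δ ^ 2 * m / 8))) := by ring
      _ ≤ (N : ℝ) ^ 4 * ((Ω.card : ℝ) ^ m * (1 / (N : ℝ) ^ (A + 4))) := by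
          have : 4 * (N : ℝ) ^ 2 + 2 * N ≤ (N : ℝ) ^ 4 := by
            have a : (N : ℝ) ≤ N ^ 2 := by nlinarith
            have b : 6 * (N : ℝ) ^ 2 ≤ N ^ 4 := by
              have : (N : ℝ) ^ 4 = N ^ 2 * N ^ 2 := by ring
              rw [this]
              refine mul_le_mul_of_nonneg_right ?_ (by positivity)
              nlinarith
            linarith
          refine mul_le_mul this (mul_le_mul_of_nonneg_left e3 hX) (by positivity) (by positivity)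
      _ = (Ω.card : ℝ) ^ m / (N : ℝ) ^ A := by
          rw [pow_add]
          field_simp
  · intro w hw hwB
    have hwS : w ∈ Smp Ω m := Smp_mem.2 hw
    have hw1 := hw1 w hwS (fun h => hwB (mem_union_left _ h))
    have hw2 := hw2 w hwS (fun h => hwB (mem_union_right _ h))
    have hYr : ∀ ω ∈ Ω, |(Yv ω : ℝ)| ≤ Bc * N := by
      intro ω hω
      have := hY ω hω
      exact_mod_cast this
    have hsup := ecf_sup Ω hΩ m hm1 Yv (Bc * N) (by positivity) hYr w hwS (N ^ 2) (Nat.one_le_pow _ _ (by omega)) δ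
      (fun j hj b => hw1 (j, b) (by rw [hJ]; exact mem_product.2 ⟨hj, mem_univ _⟩))
    have hδs : 2 * δ + 4 * Real.pi * ((Bc * N) / ((N ^ 2 : ℕ) : ℝ)) ≤ (1 / L ^ V) / 2 := by
      have a1 : (Bc * N : ℝ) / ((N ^ 2 : ℕ) : ℝ) = Bc / N := by
        push_cast
        field_simp
      have a2 : 4 * Real.pi * ((Bc : ℝ) / N) ≤ 1 / L ^ (V + 1) := by
        have hpi : Real.pi ≤ 3.15 := Real.pi_lt_d2.le
        calc 4 * Real.pi * ((Bc : ℝ) / N) = 4 * Real.pi * Bc / N := by ring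
          _ ≤ L / N := by
              refine div_le_div_of_nonneg_right ?_ hN0.le
              nlinarith
          _ ≤ 1 / L ^ (V + 1) := by
              rw [div_le_div_iff₀ hN0 (by positivity), one_mul]
              refine le_trans (le_of_eq ?_) hLN
              ring
      have a3 : δ ≤ 1 / L ^ (V + 1) := by
        rw [hδ]
        exact one_div_le_one_div_of_le (by positivity) (pow_le_pow_right₀ hL1 (by omega))
      have a4 : 1 / L ^ (V + 1) * L = 1 / L ^ V := by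
        rw [pow_succ]
        field_simp
      have a5 : 0 ≤ 1 / L ^ (V + 1) := by positivity
      rw [a1]
      nlinarith
    have hT := hT (fun l => Yv (w l)) (fun _ _ => by positivity) (by
      rw [sum_const, card_univ, Fintype.card_fin, nsmul_eq_mul]
      field_simp
      exact le_refl _) (fun l _ => hY _ (hw l)) H hH1 hH2 (by
      intro α hα
      have b1 := hφ α hα
      have b2 := hsup α
      have b3 : ‖cf Ω Yv α‖ ≤ 1 / L ^ (V + 1) := by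
        unfold cf
        rw [norm_mul, Complex.norm_real, Real.norm_eq_abs, abs_of_nonneg (by positivity)]
        calc (1 / Ω.card : ℝ) * ‖∑ ω ∈ Ω, ee ((Yv ω : ℝ) * α)‖ ≤ (1 / Ω.card : ℝ) * (Ω.card / L ^ (V + 1)) :=
              mul_le_mul_of_nonneg_left b1 (by positivity)
          _ = 1 / L ^ (V + 1) := by field_simp
      have b4 : 1 / L ^ (V + 1) ≤ (1 / L ^ V) / 2 := by
        have a4 : 1 / L ^ (V + 1) * L = 1 / L ^ V := by
          rw [pow_succ]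
          field_simp
        have a5 : 0 ≤ 1 / L ^ (V + 1) := by positivity
        rw [← a4]
        nlinarith
      have b5 : ∑ l ∈ (univ : Finset (Fin m)), (((1 / m : ℝ) : ℝ) : ℂ) * ee ((Yv (w l) : ℝ) * α) = ecf m Yv w α := by
        unfold ecf
        rw [mul_sum]
      rw [b5]
      have b6 : ecf m Yv w α = (ecf m Yv w α - cf Ω Yv α) + cf Ω Yv α := by ring
      rw [b6]
      refine (norm_add_le _ _).trans ?_
      linarith)
    have hpt : ∀ n ∈ Icc 1 N, ((1 / m : ℝ) * ∑ l, lamI ((n : ℤ) + Yv (w l)) -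
        (1 / Ω.card : ℝ) * ∑ ω ∈ Ω, lamzI z ((n : ℤ) + Yv ω)) ^ 2 ≤
        2 * (∑ l ∈ (univ : Finset (Fin m)), (1 / m : ℝ) * (lamI ((n : ℤ) + Yv (w l)) - lamzI z ((n : ℤ) + Yv (w l)))) ^ 2 +
          2 * (1 / L ^ (U + 2)) := by
      intro n hn
      have c1 := hw2 n hn
      unfold dev at c1
      rw [← sum_div, ← sum_div] at c1
      have c2 : (1 / m : ℝ) * ((∑ l, lamzI z ((n : ℤ) + Yv (w l))) / L) - (1 / Ω.card : ℝ) * ((∑ ω ∈ Ω, lamzI z ((n : ℤ) + Yv ω)) / L) =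
          ((1 / m : ℝ) * (∑ l, lamzI z ((n : ℤ) + Yv (w l))) - (1 / Ω.card : ℝ) * (∑ ω ∈ Ω, lamzI z ((n : ℤ) + Yv ω))) / L := by ring
      rw [c2, abs_div, abs_of_pos hL0, div_le_iff₀ hL0] at c1
      have c3 : δ * L ≤ 1 / L ^ (U + 2) := by
        rw [hδ, div_mul_eq_mul_div, one_mul, div_le_div_iff₀ (by positivity) (by positivity), one_mul, ← pow_succ']
        exact pow_le_pow_right₀ hL1 (by omega)
      obtain ⟨a, ha⟩ : ∃ a, a = ∑ l ∈ (univ : Finset (Fin m)), (1 / m : ℝ) * (lamI ((n : ℤ) + Yv (w l)) - lamzI z ((n : ℤ) + Yv (w l))) := ⟨_, rfl⟩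
      obtain ⟨b, hb⟩ : ∃ b, b = (1 / m : ℝ) * (∑ l, lamzI z ((n : ℤ) + Yv (w l))) - (1 / Ω.card : ℝ) * (∑ ω ∈ Ω, lamzI z ((n : ℤ) + Yv ω)) := ⟨_, rfl⟩
      have hab : (1 / m : ℝ) * ∑ l, lamI ((n : ℤ) + Yv (w l)) - (1 / Ω.card : ℝ) * ∑ ω ∈ Ω, lamzI z ((n : ℤ) + Yv ω) = a + b := by
        rw [ha, hb, ← mul_sum, sum_sub_distrib]
        ring
      rw [hab, ← ha]
      rw [← hb] at c1
      have c4 : |b| ≤ 1 / L ^ (U + 2) := c1.trans c3
      have c5 : 1 / L ^ (U + 2) ≤ 1 := by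
        rw [div_le_one (by positivity)]
        exact one_le_pow₀ hL1
      have c6 : b ^ 2 ≤ 1 / L ^ (U + 2) := by
        rw [← sq_abs]
        have := abs_nonneg b
        nlinarith
      nlinarith [sq_nonneg (a - b)]
    refine (sum_le_sum hpt).trans ?_
    rw [sum_add_distrib, ← mul_sum, sum_const, Nat.card_Icc, Nat.add_sub_cancel, nsmul_eq_mul]
    have d1 : (N : ℝ) / L ^ U = L ^ 2 * (N / L ^ (U + 2)) := by
      rw [pow_add]
      field_simp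
    have d2 : 0 ≤ (N : ℝ) / L ^ (U + 2) := by positivity
    have d3 : (N : ℝ) * (2 * (1 / L ^ (U + 2))) = 2 * (N / L ^ (U + 2)) := by ring
    rw [d1, d3]
    have d4 : (4 : ℝ) ≤ L ^ 2 := by nlinarith
    nlinarith

end Pool.Agent.Run7.h880.MK
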