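import Mathlib
import Pool.Agent.Run7.h880.MK.Prl2
import Pool.Agent.Run7.h880.MK.Rnd
import Pool.Agent.W93.GB3
import Pool.Agent.W93.PG2

/-! Project MK: the sieve model averaged over the primes `p ≤ H` at `n - p`. -/

set_option autoImplicit false

namespace Pool.Agent.Run7.h880.MK

open Finset Filter Topology
open Pool.Agent.H807R2.Dav
open Pool.Agent.H373R2.T7
open Pool.Agent.H560R3.GB (sing)
open Pool.Agent.W93.GB (sh)

/-- the model averaged over the primes up to `H` -/
theorem model_avg (E U : ℕ) : ∃ N0 : ℕ, ∀ N : ℕ, N0 ≤ N → ∀ H : ℕ, (N : ℝ) ^ (1 / 3 : ℝ) ≤ H → H ≤ N →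
    ∀ z : ℕ, 1 ≤ z → (z : ℝ) ≤ Real.log N ^ E → ∀ n : ℕ, H < n →
    |(1 / (PH H).card : ℝ) * ∑ p ∈ PH H, lamzI z ((n : ℤ) - p) - singZ (sh n) z| ≤ 1 / Real.log N ^ U := by
  obtain ⟨n0, h0⟩ := tuple_main 1 (E + 1) (U + 6) le_rfl
  obtain ⟨n1, h1⟩ := lam_ap 1 (U + 7)
  obtain ⟨n2, h2⟩ := Vz_inv_small E
  obtain ⟨n3, h3⟩ := ev_L' (6 ^ (E + 1) + 6 ^ (U + 6) + 3 ^ (U + 7) + 100)
  obtain ⟨n4, h4⟩ := PH_ge
  obtain ⟨n5, h5⟩ := ev_big 0 (6 * (U + 10))
  refine ⟨n0 ^ 6 + n1 ^ 3 + n2 + n3 + n4 ^ 3 + n5 + 4, fun N hN H hH1 hH2 z hz hzE n hn => ?_⟩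
  have h2 := h2 N (by omega) z hz hzE
  have h3 := h3 N (by omega)
  have h5 := (h5 N (by omega)).2
  obtain ⟨L, hL⟩ : ∃ L, L = Real.log (N : ℝ) := ⟨_, rfl⟩
  rw [← hL] at h2 h3 h5 hzE ⊢
  have hp1 : (0 : ℝ) < 6 ^ (E + 1) := by positivity
  have hp2 : (0 : ℝ) < 6 ^ (U + 6) := by positivity
  have hp3 : (0 : ℝ) < 3 ^ (U + 7) := by positivity
  have hL100 : 100 ≤ L := by linarith
  have hL1 : 1 ≤ L := by linarith
  have hL0 : 0 < L := by linarith
  have hN4 : (4 : ℝ) ≤ N := by exact_mod_cast (by omega : 4 ≤ N)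
  have hN0 : (0 : ℝ) < N := by linarith
  have hHN : (H : ℝ) ≤ N := by exact_mod_cast hH2
  -- sizes of `H`
  have hcube : (N : ℝ) ≤ (H : ℝ) ^ 3 := by
    have e : (N : ℝ) = ((N : ℝ) ^ (1 / 3 : ℝ)) ^ 3 := by
      rw [← Real.rpow_natCast, ← Real.rpow_mul hN0.le]
      norm_num
    rw [e]
    exact pow_le_pow_left₀ (by positivity) hH1 3
  have hcubeN : N ≤ H ^ 3 := by exact_mod_cast hcube
  have hHn1 : n1 ≤ H := by
    by_contra hcon
    have : H ^ 3 < n1 ^ 3 := Nat.pow_lt_pow_left (lt_of_not_ge hcon) (by norm_num)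
    omega
  have hHn4 : n4 ≤ H := by
    by_contra hcon
    have : H ^ 3 < n4 ^ 3 := Nat.pow_lt_pow_left (lt_of_not_ge hcon) (by norm_num)
    omega
  have hH0 : 1 ≤ H := by
    by_contra hcon
    have : H = 0 := by omega
    rw [this] at hcubeN
    omega
  have hHr1 : (1 : ℝ) ≤ H := by exact_mod_cast hH0
  have hHr0 : (0 : ℝ) < H := by linarith
  have hs : √(H : ℝ) * √(H : ℝ) = H := Real.mul_self_sqrt hHr0.le
  have hs0 : 0 < √(H : ℝ) := Real.sqrt_pos.2 hHr0
  have hlH : Real.log H ≤ L := by rw [hL]; exact Real.log_le_log hHr0 hHN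
  have hlH2 : L / 3 ≤ Real.log H := by
    have e : Real.log ((H : ℝ) ^ 3) = 3 * Real.log H := by rw [Real.log_pow]; norm_num
    have := Real.log_le_log hN0 hcube
    rw [e, ← hL] at this
    linarith
  have hlH0 : 0 < Real.log H := by linarith
  -- `√H` is large
  have hsL : L ^ (U + 10) ≤ √(H : ℝ) := by
    have a1 : (L ^ (U + 10)) ^ 6 ≤ (√(H : ℝ)) ^ 6 := by
      calc (L ^ (U + 10)) ^ 6 = L ^ (6 * (U + 10)) := by rw [← pow_mul]; congr 1; ring
        _ ≤ N := h5
        _ ≤ (H : ℝ) ^ 3 := hcube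
        _ = (√(H : ℝ)) ^ 6 := by
            have : (√(H : ℝ)) ^ 6 = (√(H : ℝ) * √(H : ℝ)) ^ 3 := by ring
            rw [this, hs]
    exact le_of_pow_le_pow_left₀ (by norm_num) hs0.le a1
  obtain ⟨S, hS⟩ : ∃ S, S = singZ (sh n) z := ⟨_, rfl⟩
  rw [← hS]
  have hS0 : 0 ≤ S := by rw [hS]; exact singZ_nonneg _ _
  have hSL : S ≤ L := by
    rw [hS]
    have := singZ_le (sh n) z L h2
    rwa [pow_one] at this
  obtain ⟨M0, hM0⟩ : ∃ M0 : ℝ, M0 = H / L ^ (U + 5) := ⟨_, rfl⟩
  have hM00 : 0 ≤ M0 := by rw [hM0]; positivity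
  have hM0s : √(H : ℝ) * L ^ 3 ≤ M0 := by
    rw [hM0, le_div_iff₀ (by positivity)]
    calc √(H : ℝ) * L ^ 3 * L ^ (U + 5) = √(H : ℝ) * L ^ (U + 8) := by ring
      _ ≤ √(H : ℝ) * √(H : ℝ) := by
          refine mul_le_mul_of_nonneg_left (le_trans ?_ hsL) hs0.le
          exact pow_le_pow_right₀ hL1 (by omega)
      _ = H := hs
  have hlam : ∀ b, b ≤ H → lamzI z ((n : ℤ) - b) ≤ L := fun b _ => (lamzI_le _ _).trans h2
  -- the sums with `Λ`
  obtain ⟨G, hG⟩ : ∃ G : ℕ → ℝ, G = fun b => ArithmeticFunction.vonMangoldt b * (lamzI z ((n : ℤ) - b) - S) := ⟨_, rfl⟩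
  have hA : ∀ y : ℕ, y ≤ H → |∑ b ∈ Icc 1 y, G b| ≤ 2 * M0 := by
    intro y hy
    have hyH : (y : ℝ) ≤ H := by exact_mod_cast hy
    have e1 : ∑ b ∈ Icc 1 y, G b = (∑ b ∈ Icc 1 y, ArithmeticFunction.vonMangoldt b * lamzI z ((n : ℤ) - b) - S * y) -
        S * (∑ b ∈ Icc 1 y, ArithmeticFunction.vonMangoldt b - y) := by
      rw [hG]
      simp only [mul_sub]
      rw [sum_sub_distrib, ← sum_mul]
      ring
    have e2 : |∑ b ∈ Icc 1 y, ArithmeticFunction.vonMangoldt b - (y : ℝ)| ≤ M0 / L := by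
      have a1 := h1 H hHn1 1 le_rfl (by rw [pow_one, Nat.cast_one]; linarith) 0 y hy
      rw [if_pos (by simp)] at a1
      have a2 : (Icc 1 y).filter (fun b => b ≡ 0 [MOD 1]) = Icc 1 y := by
        rw [filter_eq_self]
        intro b _
        exact Nat.modEq_one
      rw [a2, Nat.totient_one, Nat.cast_one, div_one] at a1
      refine a1.trans ?_
      calc (H : ℝ) / Real.log H ^ (U + 7) ≤ H / (L / 3) ^ (U + 7) :=
            div_le_div_of_nonneg_left hHr0.le (by positivity) (pow_le_pow_left₀ (by positivity) hlH2 _)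
        _ = M0 / L * (3 ^ (U + 7) / L) := by
            rw [hM0, div_pow]
            have : L ^ (U + 7) = L ^ (U + 5) * L * L := by ring
            rw [this]
            field_simp
        _ ≤ M0 / L * 1 := by
            refine mul_le_mul_of_nonneg_left ?_ (by positivity)
            rw [div_le_one hL0]
            linarith
        _ = _ := mul_one _
    have e3 : |∑ b ∈ Icc 1 y, ArithmeticFunction.vonMangoldt b * lamzI z ((n : ℤ) - b) - S * y| ≤ M0 := by
      rcases lt_or_ge (y : ℝ) (√(H : ℝ)) with hy1 | hy1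
      · have a1 : |∑ b ∈ Icc 1 y, ArithmeticFunction.vonMangoldt b * lamzI z ((n : ℤ) - b)| ≤ 6 * y * L := by
          refine (abs_sum_le_sum_abs _ _).trans ?_
          calc ∑ b ∈ Icc 1 y, |ArithmeticFunction.vonMangoldt b * lamzI z ((n : ℤ) - b)| ≤
                ∑ b ∈ Icc 1 y, ArithmeticFunction.vonMangoldt b * L := by
                refine sum_le_sum fun b hb => ?_
                rw [abs_mul, abs_of_nonneg ArithmeticFunction.vonMangoldt_nonneg, abs_of_nonneg (lamzI_nonneg _ _)]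
                exact mul_le_mul_of_nonneg_left (hlam b ((mem_Icc.1 hb).2.trans hy)) ArithmeticFunction.vonMangoldt_nonneg
            _ ≤ 6 * y * L := by
                rw [← sum_mul]
                exact mul_le_mul_of_nonneg_right (lam1_le y) hL0.le
        have a2 : |S * y| ≤ L * y := by
          rw [abs_of_nonneg (by positivity)]
          exact mul_le_mul_of_nonneg_right hSL (Nat.cast_nonneg _)
        refine (abs_sub _ _).trans ?_
        refine (add_le_add a1 a2).trans ?_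
        refine le_trans ?_ hM0s
        have a3 : (y : ℝ) * L ≤ √(H : ℝ) * L := mul_le_mul_of_nonneg_right hy1.le hL0.le
        have a4 : √(H : ℝ) * L ^ 3 = (√(H : ℝ) * L) * L ^ 2 := by ring
        have a5 : 0 < √(H : ℝ) * L := by positivity
        have a6 : (7 : ℝ) ≤ L ^ 2 := by nlinarith
        rw [a4]
        nlinarith
      · have hy0 : (0 : ℝ) < y := by linarith
        have hyn : n0 ≤ y := by
          have b1 : (n0 : ℝ) ^ 6 ≤ (√(H : ℝ)) ^ 6 := by
            calc (n0 : ℝ) ^ 6 ≤ N := by exact_mod_cast (by omega : n0 ^ 6 ≤ N)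
              _ ≤ (H : ℝ) ^ 3 := hcube
              _ = (√(H : ℝ)) ^ 6 := by
                  have : (√(H : ℝ)) ^ 6 = (√(H : ℝ) * √(H : ℝ)) ^ 3 := by ring
                  rw [this, hs]
          have b2 := le_of_pow_le_pow_left₀ (by norm_num) hs0.le b1
          exact_mod_cast b2.trans hy1
        have hly : L / 6 ≤ Real.log y := by
          have c1 : Real.log (√(H : ℝ)) = Real.log H / 2 := Real.log_sqrt hHr0.le
          have c2 := Real.log_le_log hs0 hy1
          rw [c1] at c2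
          linarith
        have hly0 : 0 < Real.log y := by linarith
        have hzy : (z : ℝ) ≤ Real.log y ^ (E + 1) := by
          calc (z : ℝ) ≤ L ^ E := hzE
            _ = L ^ (E + 1) / L := by rw [pow_succ]; field_simp
            _ ≤ L ^ (E + 1) / 6 ^ (E + 1) := div_le_div_of_nonneg_left (by positivity) (by positivity) (by linarith)
            _ = (L / 6) ^ (E + 1) := by rw [div_pow]
            _ ≤ _ := pow_le_pow_left₀ (by positivity) hly _
        have a1 := h0 y hyn z hz hzy (sh n)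
        rw [← Pool.Agent.W93.PG.win_sum z n y (by omega), ← hS] at a1
        refine a1.trans ?_
        calc (y : ℝ) / Real.log y ^ (U + 6) ≤ H / (L / 6) ^ (U + 6) :=
              div_le_div₀ hHr0.le hyH (by positivity) (pow_le_pow_left₀ (by positivity) hly _)
          _ = M0 * (6 ^ (U + 6) / L) := by
              rw [hM0, div_pow]
              have : L ^ (U + 6) = L ^ (U + 5) * L := by ring
              rw [this]
              field_simp
          _ ≤ M0 * 1 := by
              refine mul_le_mul_of_nonneg_left ?_ hM00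
              rw [div_le_one hL0]
              linarith
          _ = _ := mul_one _
    rw [e1]
    refine (abs_sub _ _).trans ?_
    have e4 : |S * (∑ b ∈ Icc 1 y, ArithmeticFunction.vonMangoldt b - (y : ℝ))| ≤ M0 := by
      rw [abs_mul, abs_of_nonneg hS0]
      calc S * |∑ b ∈ Icc 1 y, ArithmeticFunction.vonMangoldt b - (y : ℝ)| ≤ L * (M0 / L) :=
            mul_le_mul hSL e2 (abs_nonneg _) hL0.le
        _ = M0 := by field_simp
    linarith
  -- partial summation
  have hB : |∑ b ∈ Icc 1 H, G b * gl b| ≤ 3 * M0 := by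
    have a1 := abel_anti (fun b => ((G b : ℝ) : ℂ)) gl gl_anti gl_nonneg (2 * M0) H (by
      intro y hy
      rw [← Complex.ofReal_sum, Complex.norm_real, Real.norm_eq_abs]
      exact hA y hy)
    have a2 : ∑ b ∈ Icc 1 H, ((G b : ℝ) : ℂ) * (gl b : ℂ) = ((∑ b ∈ Icc 1 H, G b * gl b : ℝ) : ℂ) := by
      push_cast
      rfl
    rw [a2, Complex.norm_real, Real.norm_eq_abs] at a1
    refine a1.trans ?_
    have := gl_zero
    nlinarith
  -- prime powers
  have hC : |∑ b ∈ (Icc 1 H).filter (fun b => ¬ b.Prime), G b * gl b| ≤ M0 := by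
    have h8 : ∑ b ∈ (Icc 1 H).filter (fun b => ¬ b.Prime), ArithmeticFunction.vonMangoldt b ≤ 2 * √(H : ℝ) * L := by
      have h9 := Chebyshev.psi_sub_theta_le (x := (H : ℝ)) hHr1
      have h10 := Chebyshev.psi_sub_theta_eq_sum_not_prime (H : ℝ)
      rw [h10, Nat.floor_natCast] at h9
      have h11 : 2 * √(H : ℝ) * Real.log H ≤ 2 * √(H : ℝ) * L := mul_le_mul_of_nonneg_left hlH (by positivity)
      refine le_trans (le_of_eq ?_) (h9.trans h11)
      refine sum_congr ?_ fun _ _ => rfl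
      ext b
      simp only [mem_filter, mem_Icc, mem_Ioc]
      constructor
      · rintro ⟨⟨h1, h2⟩, h3⟩
        exact ⟨⟨by omega, h2⟩, h3⟩
      · rintro ⟨⟨h1, h2⟩, h3⟩
        exact ⟨⟨by omega, h2⟩, h3⟩
    refine (abs_sum_le_sum_abs _ _).trans ?_
    calc ∑ b ∈ (Icc 1 H).filter (fun b => ¬ b.Prime), |G b * gl b|
        ≤ ∑ b ∈ (Icc 1 H).filter (fun b => ¬ b.Prime), ArithmeticFunction.vonMangoldt b * (L * (3 / 2)) := by
          refine sum_le_sum fun b hb => ?_
          have hv : 0 ≤ ArithmeticFunction.vonMangoldt b := ArithmeticFunction.vonMangoldt_nonneg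
          have hb1 : |lamzI z ((n : ℤ) - b) - S| ≤ L := by
            rw [abs_le]
            have c1 := lamzI_nonneg z ((n : ℤ) - b)
            have c2 := hlam b (mem_Icc.1 (mem_filter.1 hb).1).2
            constructor <;> linarith
          have hg : gl b ≤ 3 / 2 := (gl_anti (Nat.zero_le b)).trans gl_zero
          rw [hG]
          simp only
          rw [abs_mul, abs_mul, abs_of_nonneg hv, abs_of_nonneg (gl_nonneg b), mul_assoc]
          exact mul_le_mul_of_nonneg_left (mul_le_mul hb1 hg (gl_nonneg b) hL0.le) hv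
      _ ≤ (2 * √(H : ℝ) * L) * (L * (3 / 2)) := by
          rw [← sum_mul]
          exact mul_le_mul_of_nonneg_right h8 (by positivity)
      _ = 3 * (√(H : ℝ) * L ^ 2) := by ring
      _ ≤ L * (√(H : ℝ) * L ^ 2) := mul_le_mul_of_nonneg_right (by linarith) (by positivity)
      _ = √(H : ℝ) * L ^ 3 := by ring
      _ ≤ M0 := hM0s
  have hD : ∑ p ∈ PH H, (lamzI z ((n : ℤ) - p) - S) = ∑ b ∈ Icc 1 H, G b * gl b - ∑ b ∈ (Icc 1 H).filter (fun b => ¬ b.Prime), G b * gl b := by
    rw [← sum_filter_add_sum_filter_not (Icc 1 H) Nat.Prime, add_sub_cancel_right]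
    unfold PH
    refine sum_congr rfl fun p hp => ?_
    have h7 := gl_prime (mem_filter.1 hp).2
    rw [hG]
    simp only
    calc lamzI z ((n : ℤ) - p) - S = (ArithmeticFunction.vonMangoldt p * gl p) * (lamzI z ((n : ℤ) - p) - S) := by rw [h7, one_mul]
      _ = _ := by ring
  have hE : |∑ p ∈ PH H, (lamzI z ((n : ℤ) - p) - S)| ≤ 4 * M0 := by
    rw [hD]
    refine (abs_sub _ _).trans ?_
    linarith
  have h4 := h4 H hHn4
  have hc0 : (0 : ℝ) < (PH H).card := lt_of_lt_of_le (by positivity) h4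
  have hF : (1 / (PH H).card : ℝ) * ∑ p ∈ PH H, lamzI z ((n : ℤ) - p) - S = (∑ p ∈ PH H, (lamzI z ((n : ℤ) - p) - S)) / (PH H).card := by
    rw [sum_sub_distrib, sum_const, nsmul_eq_mul]
    field_simp
  rw [hF, abs_div, abs_of_pos hc0, div_le_iff₀ hc0]
  refine hE.trans ?_
  have hG1 : (H : ℝ) / (2 * L) ≤ (PH H).card := by
    refine le_trans ?_ h4
    exact div_le_div_of_nonneg_left hHr0.le (by positivity) (by linarith)
  calc 4 * M0 = (H / (2 * L)) * (8 / L ^ 4) * (1 / L ^ U) := by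
        rw [hM0]
        have : L ^ (U + 5) = L ^ U * L ^ 4 * L := by ring
        rw [this]
        field_simp
        ring
    _ ≤ (PH H).card * 1 * (1 / L ^ U) := by
        refine mul_le_mul_of_nonneg_right ?_ (by positivity)
        refine mul_le_mul hG1 ?_ (by positivity) (by positivity)
        rw [div_le_one (by positivity)]
        have : L ≤ L ^ 4 := le_self_pow₀ hL1 (by norm_num)
        linarith
    _ = _ := by ring

end Pool.Agent.Run7.h880.MK
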