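import Mathlib
import Pool.Agent.Run7.h880.MK.Mdl
import Pool.Agent.Run7.h18.MK.T31G
import Pool.Agent.Run7.h18.MK.Arc0
import Pool.Agent.Run7.h777.MK.Maj
import Pool.Agent.Run7.h794.MK.SiaAll
import Pool.Agent.Run7.h931.MK.Ev

/-! Project MK: Goldbach representations with a prime `p ≤ H`, `H ≥ N^(1/3) log^C N`. -/

set_option autoImplicit false

namespace Pool.Agent.Run7.h880.MK

open Finset Filter Topology
open Pool.Agent.H807R2.Dav
open Pool.Agent.H373R2.T7
open Pool.Agent.H560R3.GB (sing)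
open Pool.Agent.W93.GB (sh one_le_sing singZ_near)
open Pool.Agent.Run7.h931.MK (pp_inner card_markov)

/-- unconditional -/
theorem t31g : Pool.Agent.Run7.h18.MK.S_T31G :=
  Pool.Agent.Run7.h18.MK.t_T31G (Pool.Agent.Run7.h18.MK.t_ARC0 (Pool.Agent.Run7.h777.MK.t_MAJ Pool.Agent.Run7.h794.MK.sia_all))

lemma ev_pack (U : ℕ) (δ : ℝ) (hδ : 0 < δ) : ∃ N₀ : ℕ, ∀ N : ℕ, N₀ ≤ N → 8 / δ ^ 2 + 100 ≤ Real.log N ∧
    (1 - δ) * Real.log N ≤ Real.log (N / (2 * Real.log N ^ (U + 1))) ∧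
    2 * √(N : ℝ) * Real.log N / δ ≤ N / (4 * Real.log N ^ U) ∧ 4 * Real.log N ^ (U + 1) ≤ N := by
  have h1 := Pool.Agent.Run7.h931.MK.ev_sub (U + 1) (Real.log 2) δ hδ
  obtain ⟨n1, h1⟩ := eventually_atTop.1 h1
  obtain ⟨n2, h2⟩ := ev_L' (8 / δ ^ 2 + 100)
  obtain ⟨n3, h3⟩ := ev_log' (U + 1) (8 / δ)
  obtain ⟨n4, h4⟩ := ev_log' (U + 1) 4
  refine ⟨n1 + n2 + n3 + n4 + 1, fun N hN => ?_⟩
  have h1 := h1 N (by omega)
  have h2 := h2 N (by omega)
  have h3 := h3 N (by omega)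
  have h4 := h4 N (by omega)
  have hN1 : (1 : ℝ) ≤ N := by exact_mod_cast (by omega : 1 ≤ N)
  obtain ⟨L, hL⟩ : ∃ L, L = Real.log (N : ℝ) := ⟨_, rfl⟩
  rw [← hL] at h1 h2 h3 h4 ⊢
  have hd : 0 < 8 / δ ^ 2 := by positivity
  have hL0 : 0 < L := by linarith
  have hs : √(N : ℝ) * √(N : ℝ) = N := Real.mul_self_sqrt (by linarith)
  have hs1 : 1 ≤ √(N : ℝ) := Real.one_le_sqrt.2 hN1
  refine ⟨h2, ?_, ?_, ?_⟩
  · rw [Real.log_div (by positivity) (by positivity), Real.log_mul (by norm_num) (by positivity), Real.log_pow, ← hL]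
    push_cast at h1 ⊢
    linarith
  · rw [div_le_div_iff₀ hδ (by positivity)]
    rw [div_mul_eq_mul_div, div_le_iff₀ hδ] at h3
    calc 2 * √(N : ℝ) * L * (4 * L ^ U) = √(N : ℝ) * (8 * L ^ (U + 1)) := by ring
      _ ≤ √(N : ℝ) * (√(N : ℝ) * δ) := mul_le_mul_of_nonneg_left h3 (by positivity)
      _ = N * δ := by rw [← mul_assoc, hs]
  · refine h4.trans ?_
    nlinarith

/-- **short Goldbach**: the number of the primes `p ≤ H` with `n - p` prime, all but few even `n` -/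
theorem gold_short (U : ℕ) (ε : ℝ) (hε : 0 < ε) : ∃ C N₀ : ℕ, ∀ N : ℕ, N₀ ≤ N → ∀ H : ℕ,
    (N : ℝ) ^ (1 / 3 : ℝ) * Real.log N ^ C ≤ H → (H : ℝ) * Real.log N ^ C ≤ N → ∃ E : Finset ℕ,
    (E.card : ℝ) ≤ N / Real.log N ^ U ∧ ∀ n : ℕ, 1 ≤ n → n ≤ N → 2 ∣ n → n ∉ E → H < n ∧
    |(((PH H).filter (fun p => (n - p).Prime)).card : ℝ) - sing n * ((PH H).card / Real.log N)| ≤
      ε * (sing n * ((PH H).card / Real.log N)) := by
  classical
  obtain ⟨δ, hδ⟩ : ∃ δ : ℝ, δ = min (ε / 8) (1 / 8) := ⟨_, rfl⟩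
  have hδ0 : 0 < δ := by rw [hδ]; positivity
  have hδ1 : δ ≤ 1 / 8 := by rw [hδ]; exact min_le_right _ _
  have hδε : δ ≤ ε / 8 := by rw [hδ]; exact min_le_left _ _
  obtain ⟨V, hT⟩ := t31g 1 (U + 1)
  obtain ⟨T, D, N1, hP⟩ := prime_law V
  obtain ⟨C, hT⟩ := hT T D
  obtain ⟨N2, hT⟩ := hT (T + 3)
  obtain ⟨N3, hM⟩ := model_avg (T + 3) 1
  obtain ⟨N4, hS⟩ := singZ_near δ hδ0
  obtain ⟨N5, hE⟩ := ev_pack (U + 1) δ hδ0
  obtain ⟨N6, h6⟩ := ev_big (N4 + 2) (U + 3)
  refine ⟨C + U + 3, N1 + N2 + N3 + N4 + N5 + N6 + 4, fun N hN H hH1 hH2 => ?_⟩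
  obtain ⟨hL8, hlog, hpp, hbig⟩ := hE N (by omega)
  obtain ⟨h6, h7⟩ := h6 N (by omega)
  have hT := hT N (by omega)
  have hM := hM N (by omega) H
  have hP := hP N (by omega) H
  obtain ⟨L, hL⟩ : ∃ L, L = Real.log (N : ℝ) := ⟨_, rfl⟩
  rw [← hL] at hL8 hlog hpp hbig hT hM hP h6 h7 hH1 hH2 ⊢
  have hd : 0 < 8 / δ ^ 2 := by positivity
  have hL100 : 100 ≤ L := by linarith
  have hL1 : 1 ≤ L := by linarith
  have hL0 : 0 < L := by linarith
  have hN4 : (4 : ℝ) ≤ N := by exact_mod_cast (by omega : 4 ≤ N)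
  have hN0 : (0 : ℝ) < N := by linarith
  have hcr0 : 0 < (N : ℝ) ^ (1 / 3 : ℝ) := Real.rpow_pos_of_pos hN0 _
  have hHa : (N : ℝ) ^ (1 / 3 : ℝ) ≤ H := by
    refine le_trans ?_ hH1
    have : 1 ≤ L ^ (C + U + 3) := one_le_pow₀ hL1
    nlinarith
  have hHC : (N : ℝ) ^ (1 / 3 : ℝ) * L ^ C ≤ H := by
    refine le_trans ?_ hH1
    exact mul_le_mul_of_nonneg_left (pow_le_pow_right₀ hL1 (by omega)) hcr0.le
  have hHNr : (H : ℝ) ≤ N := by
    refine le_trans ?_ hH2
    have h1 : 1 ≤ L ^ (C + U + 3) := one_le_pow₀ hL1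
    have : (0 : ℝ) ≤ H := Nat.cast_nonneg _
    nlinarith
  have hHN : H ≤ N := by exact_mod_cast hHNr
  have hHU : (H : ℝ) ≤ N / (2 * L ^ (U + 2)) := by
    rw [le_div_iff₀ (by positivity)]
    refine le_trans ?_ hH2
    refine mul_le_mul_of_nonneg_left ?_ (Nat.cast_nonneg _)
    calc 2 * L ^ (U + 2) ≤ L * L ^ (U + 2) := mul_le_mul_of_nonneg_right (by linarith) (by positivity)
      _ = L ^ (U + 3) := by ring
      _ ≤ _ := pow_le_pow_right₀ hL1 (by omega)
  -- the level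
  obtain ⟨z, hz⟩ : ∃ z : ℕ, z = ⌈L ^ (T + 2)⌉₊ := ⟨_, rfl⟩
  have hz1 : L ^ (T + 2) ≤ z := by rw [hz]; exact Nat.le_ceil _
  have hz2 : (z : ℝ) ≤ L ^ (T + 3) := by
    have h1 : (z : ℝ) < L ^ (T + 2) + 1 := by rw [hz]; exact Nat.ceil_lt_add_one (by positivity)
    have h2 : (1 : ℝ) ≤ L ^ (T + 2) := one_le_pow₀ hL1
    have h3 : L ^ (T + 3) = L ^ (T + 2) * L := by ring
    nlinarith
  have hzT : L ^ T ≤ z := (pow_le_pow_right₀ hL1 (by omega)).trans hz1
  have hz0 : 1 ≤ z := by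
    have : (1 : ℝ) ≤ z := (one_le_pow₀ hL1).trans hz1
    exact_mod_cast this
  have hcard0 : (0 : ℝ) < (PH H).card := by
    have h1 : (2 : ℕ) ≤ H := by
      have : (2 : ℝ) ≤ H := by
        refine le_trans ?_ hH1
        have h2 : (1 : ℝ) ≤ (N : ℝ) ^ (1 / 3 : ℝ) := Real.one_le_rpow (by linarith) (by norm_num)
        have h3 : L ≤ L ^ (C + U + 3) := le_self_pow₀ hL1 (by omega)
        nlinarith
      exact_mod_cast this
    have h2 : 2 ∈ PH H := mem_filter.2 ⟨mem_Icc.2 ⟨by norm_num, h1⟩, Nat.prime_two⟩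
    exact_mod_cast card_pos.2 ⟨2, h2⟩
  obtain ⟨c, hc⟩ : ∃ c : ℝ, c = (PH H).card := ⟨_, rfl⟩
  rw [← hc] at hcard0 hM
  have hH1' : 1 ≤ H := by
    have : (1 : ℝ) ≤ H := by
      refine le_trans ?_ hHa
      exact Real.one_le_rpow (by linarith) (by norm_num)
    exact_mod_cast this
  -- the mean square
  have hms := hT z hzT hz2 ℕ (PH H) (fun _ => 1 / c) (fun p => -(p : ℤ)) (fun _ _ => by positivity) (by
      rw [sum_const, nsmul_eq_mul, ← hc]
      field_simp
      exact le_refl _) (by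
      intro p hp
      have h1 : p ≤ H := (mem_Icc.1 (mem_filter.1 hp).1).2
      rw [abs_neg, Nat.abs_cast]
      push_cast
      have : (p : ℤ) ≤ N := by exact_mod_cast h1.trans hHN
      linarith) H hHC hHN (by
      intro α hα
      have h1 := hP hHa hHN (-α) (by
        intro k hk1 hk2 a
        have h2 := hα k hk1 hk2 (-a)
        have h3 : |-α - a / k| = |α - ((-a : ℤ) : ℝ) / k| := by
          rw [← abs_neg]
          congr 1
          push_cast
          ring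
        rw [h3]
        exact h2)
      rw [← hc] at h1
      have h4 : ∑ p ∈ PH H, (((1 / c : ℝ) : ℝ) : ℂ) * ee (((-(p : ℤ) : ℤ) : ℝ) * α) = ((1 / c : ℝ) : ℂ) * ∑ p ∈ PH H, ee ((p : ℝ) * (-α)) := by
        rw [mul_sum]
        refine sum_congr rfl fun p _ => ?_
        congr 2
        push_cast
        ring
      rw [h4, norm_mul, Complex.norm_real, Real.norm_eq_abs, abs_of_nonneg (by positivity)]
      calc 1 / c * ‖∑ p ∈ PH H, ee ((p : ℝ) * (-α))‖ ≤ 1 / c * (c / L ^ V) := mul_le_mul_of_nonneg_left h1 (by positivity)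
        _ = 1 / L ^ V := by field_simp)
  -- the exceptional sets
  obtain ⟨An, hAn⟩ : ∃ An : ℕ → ℝ, An = fun n : ℕ => ∑ p ∈ PH H, 1 / c * (lamI ((n : ℤ) + -(p : ℤ)) - lamzI z ((n : ℤ) + -(p : ℤ))) := ⟨_, rfl⟩
  obtain ⟨Pn, hPn⟩ : ∃ Pn : ℕ → ℝ, Pn = fun n : ℕ => ∑ p ∈ PH H, 1 / c * (if ((n : ℤ) + -(p : ℤ)).toNat.Prime then 0 else lamI ((n : ℤ) + -(p : ℤ))) := ⟨_, rfl⟩
  have hPn0 : ∀ n, 0 ≤ Pn n := by
    intro n
    rw [hPn]
    refine sum_nonneg fun p _ => mul_nonneg (by positivity) ?_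
    split_ifs
    · exact le_rfl
    · exact lamI_nonneg _
  have hms' : ∑ n ∈ Icc 1 N, An n ^ 2 ≤ N / L ^ (U + 1) := by rw [hAn]; exact hms
  have hE1 : (((Icc 1 N).filter fun n => δ ^ 2 < An n ^ 2).card : ℝ) ≤ (N / L ^ (U + 1)) / δ ^ 2 :=
    card_markov (Icc 1 N) (fun n => An n ^ 2) (fun n _ => sq_nonneg _) _ _ (by positivity) hms'
  have hE2 : (((Icc 1 N).filter fun n => δ < Pn n).card : ℝ) ≤ (2 * √(N : ℝ) * L) / δ := by
    refine card_markov (Icc 1 N) Pn (fun n _ => hPn0 n) _ _ hδ0 ?_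
    rw [hPn]
    rw [sum_comm]
    calc ∑ p ∈ PH H, ∑ n ∈ Icc 1 N, 1 / c * (if ((n : ℤ) + -(p : ℤ)).toNat.Prime then 0 else lamI ((n : ℤ) + -(p : ℤ))) ≤
          ∑ p ∈ PH H, 1 / c * (2 * √(N : ℝ) * L) := by
          refine sum_le_sum fun p _ => ?_
          rw [← mul_sum]
          refine mul_le_mul_of_nonneg_left ?_ (by positivity)
          have := pp_inner N (-(p : ℤ)) N (by linarith) (by
            intro n hn
            have h1 : n ≤ N := (mem_Icc.1 hn).2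
            have h2 : (n : ℝ) ≤ N := by exact_mod_cast h1
            push_cast
            have : (0 : ℝ) ≤ p := Nat.cast_nonneg _
            linarith)
          rw [← hL] at this
          exact this
      _ = 2 * √(N : ℝ) * L := by
          rw [sum_const, nsmul_eq_mul, ← hc]
          field_simp
  obtain ⟨R, hR⟩ : ∃ R : ℝ, R = N / L ^ (U + 2) := ⟨_, rfl⟩
  have hR0 : 0 < R := by rw [hR]; positivity
  have hE3 : ((Icc 1 ⌊R⌋₊).card : ℝ) ≤ R := by
    rw [Nat.card_Icc, Nat.add_sub_cancel]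
    exact Nat.floor_le hR0.le
  refine ⟨((Icc 1 N).filter fun n => δ ^ 2 < An n ^ 2) ∪ ((Icc 1 N).filter fun n => δ < Pn n) ∪ Icc 1 ⌊R⌋₊, ?_, ?_⟩
  · have h1 : ((((Icc 1 N).filter fun n => δ ^ 2 < An n ^ 2) ∪ ((Icc 1 N).filter fun n => δ < Pn n) ∪ Icc 1 ⌊R⌋₊).card : ℝ) ≤
        ((Icc 1 N).filter fun n => δ ^ 2 < An n ^ 2).card + ((Icc 1 N).filter fun n => δ < Pn n).card + (Icc 1 ⌊R⌋₊).card := by
      exact_mod_cast (card_union_le _ _).trans (Nat.add_le_add_right (card_union_le _ _) _)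
    have h2 : (N / L ^ (U + 1)) / δ ^ 2 ≤ (N / L ^ U) / 4 := by
      rw [div_le_div_iff₀ (by positivity) (by norm_num)]
      have h3 : N / L ^ U = N / L ^ (U + 1) * L := by rw [pow_succ]; field_simp
      rw [h3, mul_assoc]
      refine mul_le_mul_of_nonneg_left ?_ (by positivity)
      have h4 : 8 / δ ^ 2 ≤ L := by linarith
      rw [div_le_iff₀ (by positivity)] at h4
      linarith
    have h3 : (2 * √(N : ℝ) * L) / δ ≤ (N / L ^ U) / 4 := by
      refine hpp.trans ?_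
      rw [div_div]
      refine div_le_div_of_nonneg_left hN0.le (by positivity) ?_
      have : L ^ U ≤ L ^ (U + 1) := pow_le_pow_right₀ hL1 (by omega)
      linarith
    have h4 : R ≤ (N / L ^ U) / 4 := by
      rw [hR, div_div]
      refine div_le_div_of_nonneg_left hN0.le (by positivity) ?_
      have : L ^ (U + 2) = L ^ U * (L * L) := by ring
      rw [this]
      have : 0 < L ^ U := by positivity
      have h5 : 4 ≤ L * L := by nlinarith
      nlinarith
    have h5 : 0 ≤ N / L ^ U := by positivity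
    linarith
  · intro n hn1 hn2 hn3 hnE
    rw [mem_union, mem_union, not_or, not_or] at hnE
    obtain ⟨⟨g1, g2⟩, g3⟩ := hnE
    have hnI : n ∈ Icc 1 N := mem_Icc.2 ⟨hn1, hn2⟩
    have g1 : |An n| ≤ δ := by
      by_contra hcon
      refine g1 (mem_filter.2 ⟨hnI, ?_⟩)
      rw [← sq_abs (An n)]
      exact pow_lt_pow_left₀ (lt_of_not_ge hcon) hδ0.le (by norm_num)
    have g2 : Pn n ≤ δ := by
      by_contra hcon
      exact g2 (mem_filter.2 ⟨hnI, lt_of_not_ge hcon⟩)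
    have g3 : R < n := by
      by_contra hcon
      exact g3 (mem_Icc.2 ⟨hn1, Nat.le_floor (le_of_not_gt hcon)⟩)
    have hnr : (n : ℝ) ≤ N := by exact_mod_cast hn2
    have hn0 : (0 : ℝ) < n := by linarith
    have hHR : (H : ℝ) ≤ R / 2 := by
      rw [hR]
      refine hHU.trans (le_of_eq ?_)
      rw [div_div]
      congr 1
      ring
    have hHn : H < n := by
      have : (H : ℝ) < n := by linarith
      exact_mod_cast this
    refine ⟨hHn, ?_⟩
    -- `n` is large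
    have hnN4 : N4 ≤ n := by
      have h1 : L ≤ R := by
        rw [hR, le_div_iff₀ (by positivity)]
        refine le_trans (le_of_eq ?_) h7
        ring
      have h2 : (N4 : ℝ) ≤ n := by linarith
      exact_mod_cast h2
    have hlogn : Real.log n ^ 2 ≤ z := by
      have h1 : Real.log n ≤ L := by rw [hL]; exact Real.log_le_log hn0 hnr
      have h2 : 0 ≤ Real.log n := Real.log_natCast_nonneg n
      calc Real.log n ^ 2 ≤ L ^ 2 := pow_le_pow_left₀ h2 h1 2
        _ ≤ L ^ (T + 2) := pow_le_pow_right₀ hL1 (by omega)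
        _ ≤ z := hz1
    have hs := hS n hnN4 hn3 z hlogn
    have hm := hM hHa hHN z hz0 hz2 n hHn
    rw [pow_one] at hm
    obtain ⟨S, hSd⟩ : ∃ S, S = sing n := ⟨_, rfl⟩
    have hS1 : 1 ≤ S := by rw [hSd]; exact one_le_sing n
    rw [← hSd] at hs ⊢
    obtain ⟨M, hMd⟩ : ∃ M, M = (1 / c) * ∑ p ∈ PH H, lamzI z ((n : ℤ) - p) := ⟨_, rfl⟩
    rw [← hMd] at hm
    have hLδ : 1 / L ≤ δ := by
      have h4 : 8 / δ ^ 2 ≤ L := by linarith
      rw [div_le_iff₀ hL0]
      rw [div_le_iff₀ (by positivity)] at h4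
      nlinarith
    have hMS : |M - S| ≤ 2 * (δ * S) := by
      have h1 : M - S = (M - singZ (sh n) z) + (singZ (sh n) z - S) := by ring
      rw [h1]
      refine (abs_add_le _ _).trans ?_
      nlinarith
    -- the sum of `Λ`
    obtain ⟨B, hB⟩ : ∃ B, B = ∑ p ∈ PH H, 1 / c * lamI ((n : ℤ) + -(p : ℤ)) := ⟨_, rfl⟩
    have hBA : B = M + An n := by
      rw [hB, hMd, hAn, mul_sum, ← sum_add_distrib]
      refine sum_congr rfl fun p _ => ?_
      rw [← sub_eq_add_neg]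
      ring
    obtain ⟨Q, hQ⟩ : ∃ Q : ℝ, Q = (((PH H).filter (fun p => (n - p).Prime)).card : ℝ) := ⟨_, rfl⟩
    rw [← hQ, ← hc]
    have hQs : Q = ∑ p ∈ PH H, (if (n - p).Prime then (1 : ℝ) else 0) := by
      rw [hQ, sum_boole]
    have hterm : ∀ p ∈ PH H, ((n : ℤ) + -(p : ℤ)).toNat = n - p ∧ (n - p : ℕ) ≤ N ∧ R / 2 ≤ ((n - p : ℕ) : ℝ) ∧ 1 ≤ (n : ℤ) + -(p : ℤ) := by
      intro p hp
      have h1 : p ≤ H := (mem_Icc.1 (mem_filter.1 hp).1).2
      refine ⟨by omega, by omega, ?_, by omega⟩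
      rw [Nat.cast_sub (by omega)]
      have h2 : (p : ℝ) ≤ H := by exact_mod_cast h1
      linarith
    have hlow : (1 - δ) * L * Q ≤ c * B := by
      rw [hQs, hB, mul_sum, mul_sum]
      refine sum_le_sum fun p hp => ?_
      obtain ⟨t1, t2, t3, t4⟩ := hterm p hp
      have h1 : c * (1 / c * lamI ((n : ℤ) + -(p : ℤ))) = lamI ((n : ℤ) + -(p : ℤ)) := by field_simp
      rw [h1]
      split_ifs with hpr
      · rw [mul_one]
        unfold lamI
        rw [if_pos t4, t1, ArithmeticFunction.vonMangoldt_apply_prime hpr]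
        refine hlog.trans ?_
        have h2 : (N : ℝ) / (2 * L ^ (U + 1 + 1)) = R / 2 := by
          rw [hR, div_div]
          congr 1
          ring
        rw [h2]
        exact Real.log_le_log (by positivity) t3
      · rw [mul_zero]
        exact lamI_nonneg _
    have hup : c * B ≤ L * Q + c * Pn n := by
      rw [hQs, hB, hPn, mul_sum, mul_sum, mul_sum, ← sum_add_distrib]
      refine sum_le_sum fun p hp => ?_
      obtain ⟨t1, t2, t3, t4⟩ := hterm p hp
      have h1 : c * (1 / c * lamI ((n : ℤ) + -(p : ℤ))) = lamI ((n : ℤ) + -(p : ℤ)) := by field_simp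
      rw [h1, t1]
      split_ifs with hpr
      · rw [mul_one, mul_zero, mul_zero, add_zero]
        unfold lamI
        rw [if_pos t4, t1, ArithmeticFunction.vonMangoldt_apply_prime hpr, hL]
        have h3 : (0 : ℝ) < ((n - p : ℕ) : ℝ) := by linarith
        exact Real.log_le_log h3 (by exact_mod_cast t2)
      · rw [mul_zero, zero_add]
        have h1 : c * (1 / c * lamI ((n : ℤ) + -(p : ℤ))) = lamI ((n : ℤ) + -(p : ℤ)) := by field_simp
        rw [h1]
    have hBS : |B - S| ≤ 3 * (δ * S) := by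
      rw [hBA]
      have h1 : M + An n - S = (M - S) + An n := by ring
      rw [h1]
      refine (abs_add_le _ _).trans ?_
      nlinarith
    obtain ⟨X, hX⟩ : ∃ X, X = L * Q / c := ⟨_, rfl⟩
    have hXQ : Q = X * c / L := by rw [hX]; field_simp
    have hX0 : 0 ≤ X := by
      rw [hX]
      have : 0 ≤ Q := by rw [hQ]; exact Nat.cast_nonneg _
      positivity
    have hX1 : (1 - δ) * X ≤ B := by
      rw [hX, ← mul_div_assoc, div_le_iff₀ hcard0]
      calc (1 - δ) * (L * Q) = (1 - δ) * L * Q := by ring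
        _ ≤ c * B := hlow
        _ = B * c := by ring
    have hX2 : B ≤ X + δ := by
      have h1 : B ≤ (L * Q + c * Pn n) / c := by
        rw [le_div_iff₀ hcard0]
        linarith
      refine h1.trans ?_
      rw [hX, add_div]
      have : c * Pn n / c = Pn n := by field_simp
      linarith
    have hfin : |X - S| ≤ ε * S := by
      have h1 := abs_le.1 hBS
      have hS0 : 0 < S := by linarith
      have h2 : δ ≤ δ * S := by nlinarith
      have h3 : δ * S ≤ ε / 8 * S := mul_le_mul_of_nonneg_right hδε hS0.le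
      rw [abs_le]
      constructor
      · linarith [h1.1]
      · have h4 : (1 - δ) * X ≤ (1 + 3 * δ) * S := by linarith [h1.2]
        have h5 : (1 + 3 * δ) * S ≤ (1 - δ) * ((1 + 8 * δ) * S) := by
          have : (1 + 3 * δ) ≤ (1 - δ) * (1 + 8 * δ) := by nlinarith
          calc (1 + 3 * δ) * S ≤ ((1 - δ) * (1 + 8 * δ)) * S := mul_le_mul_of_nonneg_right this hS0.le
            _ = _ := by ring
        have h6 : X ≤ (1 + 8 * δ) * S := le_of_mul_le_mul_left (h4.trans h5) (by linarith)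
        linarith
    have hfin2 : Q - S * (c / L) = (X - S) * (c / L) := by rw [hXQ]; ring
    rw [hfin2, abs_mul, abs_of_nonneg (show 0 ≤ c / L by positivity), ← mul_assoc]
    exact mul_le_mul_of_nonneg_right hfin (by positivity)

end Pool.Agent.Run7.h880.MK
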