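import Mathlib
import Pool.Agent.Run7.h880.MK.Gsh
import Pool.Agent.Run7.h880.MK.Smp

/-! Random primes as Goldbach summands. -/

set_option autoImplicit false

namespace Pool.Agent.Run7.h880.MK

open Finset Filter Topology
open Pool.Agent.H560R3.GB (sing C₂)
open Pool.Agent.W93.GB (one_le_sing sing_eq one_le_prod_dv C2_pos C2_half)

lemma sing_ge_C2 (n : ℕ) : 2 * C₂ ≤ sing n := by
  rw [sing_eq]
  have h1 := C2_pos
  have h2 := one_le_prod_dv (n.primeFactors.filter (fun p => 2 < p)) (fun p hp => (mem_filter.1 hp).2)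
  nlinarith

/-- the good primes for `n` -/
def GP (H n : ℕ) : Finset ℕ := (PH H).filter fun p => (n - p).Prime

lemma GP_sub (H n : ℕ) : GP H n ⊆ PH H := filter_subset _ _

/-- **random primes, all sample sizes** -/
theorem random_primes (ε : ℝ) (hε : 0 < ε) (hε1 : ε ≤ 1) (U : ℕ) : ∃ C N₀ : ℕ, ∀ N : ℕ, N₀ ≤ N → ∀ H : ℕ,
    (N : ℝ) ^ (1 / 3 : ℝ) * Real.log N ^ C ≤ H → (H : ℝ) * Real.log N ^ C ≤ N → ∃ E : Finset ℕ,
    (E.card : ℝ) ≤ N / Real.log N ^ U ∧
    (∀ n : ℕ, 1 ≤ n → n ≤ N → 2 ∣ n → n ∉ E → H < n ∧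
      |((GP H n).card : ℝ) - sing n * ((PH H).card / Real.log N)| ≤ ε * (sing n * ((PH H).card / Real.log N))) ∧
    ∀ m : ℕ, ∃ Bad : Finset (Fin m → ℕ), (Bad.card : ℝ) ≤ Real.exp (-(ε ^ 2 / 100 * (m / Real.log N))) * ((PH H).card : ℝ) ^ m ∧
      (∀ w : Fin m → ℕ, (∀ l, w l ∈ PH H) → w ∉ Bad → ∃ F : Finset ℕ,
        (F.card : ℝ) ≤ 2 * Real.exp (-(ε ^ 2 / 100 * (m / Real.log N))) * N ∧
        ∀ n : ℕ, 1 ≤ n → n ≤ N → 2 ∣ n → n ∉ E → n ∉ F →
          |(hits (GP H n) w : ℝ) - sing n * (m / Real.log N)| ≤ ε * (sing n * (m / Real.log N))) ∧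
      ((1 + ε) * Real.log N ^ 2 ≤ 2 * C₂ * m → ∃ Bad' : Finset (Fin m → ℕ),
        (Bad'.card : ℝ) ≤ ((PH H).card : ℝ) ^ m / (N : ℝ) ^ (ε / 2) ∧
        ∀ w : Fin m → ℕ, (∀ l, w l ∈ PH H) → w ∉ Bad' →
          ∀ n : ℕ, 1 ≤ n → n ≤ N → 2 ∣ n → n ∉ E → ∃ l, (n - w l).Prime) := by
  classical
  obtain ⟨C, N0, hG⟩ := gold_short U (ε / 8) (by positivity)
  obtain ⟨N1, h1⟩ := ev_big 100 1
  refine ⟨C + 1, N0 + N1 + 4, fun N hN H hH1 hH2 => ?_⟩
  have hL100 := (h1 N (by omega)).1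
  obtain ⟨L, hL⟩ : ∃ L, L = Real.log (N : ℝ) := ⟨_, rfl⟩
  have hL1 : 1 ≤ Real.log (N : ℝ) := by linarith
  have hN4 : (4 : ℝ) ≤ N := by exact_mod_cast (by omega : 4 ≤ N)
  have hN0 : (0 : ℝ) < N := by linarith
  have hcr0 : 0 < (N : ℝ) ^ (1 / 3 : ℝ) := Real.rpow_pos_of_pos hN0 _
  obtain ⟨E, hE1, hE2⟩ := hG N (by omega) H
    ((mul_le_mul_of_nonneg_left (pow_le_pow_right₀ hL1 (Nat.le_succ C)) hcr0.le).trans hH1)
    ((mul_le_mul_of_nonneg_left (pow_le_pow_right₀ hL1 (Nat.le_succ C)) (Nat.cast_nonneg _)).trans hH2)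
  have hc0 : (0 : ℝ) < (PH H).card := by
    have h2 : (2 : ℕ) ≤ H := by
      have : (2 : ℝ) ≤ H := by
        refine le_trans ?_ hH1
        have h3 : (1 : ℝ) ≤ (N : ℝ) ^ (1 / 3 : ℝ) := Real.one_le_rpow (by linarith) (by norm_num)
        have h4 : Real.log N ≤ Real.log N ^ (C + 1) := le_self_pow₀ hL1 (by omega)
        nlinarith
      exact_mod_cast this
    exact_mod_cast card_pos.2 ⟨2, mem_filter.2 ⟨mem_Icc.2 ⟨by norm_num, h2⟩, Nat.prime_two⟩⟩
  rw [← hL] at hL100 hL1 hE1 ⊢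
  have hL0 : 0 < L := by linarith
  obtain ⟨c, hc⟩ : ∃ c : ℝ, c = (PH H).card := ⟨_, rfl⟩
  -- densities
  have hP : ∀ n : ℕ, 1 ≤ n → n ≤ N → 2 ∣ n → n ∉ E → H < n ∧
      |((GP H n).card : ℝ) / c - sing n / L| ≤ ε / 8 * (sing n / L) := by
    intro n hn1 hn2 hn3 hn4
    obtain ⟨h2, h3⟩ := hE2 n hn1 hn2 hn3 hn4
    refine ⟨h2, ?_⟩
    rw [← hL, ← hc] at h3
    rw [← hc] at hc0
    have e1 : ((GP H n).card : ℝ) / c - sing n / L = (((GP H n).card : ℝ) - sing n * (c / L)) / c := by field_simp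
    rw [e1, abs_div, abs_of_pos hc0, div_le_iff₀ hc0]
    refine h3.trans (le_of_eq ?_)
    field_simp
  rw [← hc] at hc0
  refine ⟨E, hE1, ?_, ?_⟩
  · intro n hn1 hn2 hn3 hn4
    obtain ⟨h2, h3⟩ := hP n hn1 hn2 hn3 hn4
    refine ⟨h2, ?_⟩
    have hs := one_le_sing n
    rw [← hc]
    have e1 : ((GP H n).card : ℝ) - sing n * (c / L) = (((GP H n).card : ℝ) / c - sing n / L) * c := by field_simp
    rw [e1, abs_mul, abs_of_pos hc0]
    calc |((GP H n).card : ℝ) / c - sing n / L| * c ≤ (ε / 8 * (sing n / L)) * c := mul_le_mul_of_nonneg_right h3 hc0.le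
      _ = ε / 8 * (sing n * (c / L)) := by ring
      _ ≤ ε * (sing n * (c / L)) := mul_le_mul_of_nonneg_right (by linarith) (by positivity)
  intro m
  have hm0 : (0 : ℝ) ≤ m := Nat.cast_nonneg _
  obtain ⟨x, hx⟩ : ∃ x : ℝ, x = ε ^ 2 / 100 * (m / L) := ⟨_, rfl⟩
  rw [← hx]
  -- failure for one `n`
  obtain ⟨fail, hfail⟩ : ∃ fail : ℕ → (Fin m → ℕ) → Prop, fail = fun n w =>
      ¬ |(hits (GP H n) w : ℝ) - sing n * (m / L)| ≤ ε * (sing n * (m / L)) := ⟨_, rfl⟩
  have hone : ∀ n : ℕ, 1 ≤ n → n ≤ N → 2 ∣ n → n ∉ E →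
      (((Smp (PH H) m).filter fun w => fail n w).card : ℝ) ≤ 2 * (c ^ m * Real.exp (-(2 * x))) := by
    intro n hn1 hn2 hn3 hn4
    obtain ⟨-, h3⟩ := hP n hn1 hn2 hn3 hn4
    have hs := one_le_sing n
    have hs0 : 0 < sing n := by linarith
    obtain ⟨P, hPd⟩ : ∃ P : ℝ, P = ((GP H n).card : ℝ) / c := ⟨_, rfl⟩
    obtain ⟨s, hsd⟩ : ∃ s : ℝ, s = sing n / L := ⟨_, rfl⟩
    have hs1 : 0 < s := by rw [hsd]; positivity
    have hs2 : 1 / L ≤ s := by rw [hsd]; exact div_le_div_of_nonneg_right hs hL0.le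
    rw [← hPd, ← hsd] at h3
    have h4 := abs_le.1 h3
    have hch := chern (PH H) (GP H n) (GP_sub H n) m (ε / 2) (by linarith) (by linarith)
    rw [← hc, ← hPd] at hch
    have hsub : ((Smp (PH H) m).filter fun w => fail n w) ⊆
        (Smp (PH H) m).filter fun w => ε / 2 * (m * P) < |(hits (GP H n) w : ℝ) - m * P| := by
      intro w hw
      obtain ⟨hw1, hw2⟩ := mem_filter.1 hw
      refine mem_filter.2 ⟨hw1, ?_⟩
      by_contra hcon
      rw [hfail] at hw2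
      refine hw2 ?_
      push Not at hcon
      have e1 : (sing n * (m / L) : ℝ) = m * s := by rw [hsd]; ring
      rw [e1]
      have e2 : (hits (GP H n) w : ℝ) - m * s = ((hits (GP H n) w : ℝ) - m * P) + m * (P - s) := by ring
      rw [e2]
      refine (abs_add_le _ _).trans ?_
      rw [abs_mul (m : ℝ) (P - s), abs_of_nonneg hm0]
      have h5 : (m : ℝ) * |P - s| ≤ m * (ε / 8 * s) := mul_le_mul_of_nonneg_left h3 hm0
      have h6 : (m : ℝ) * P ≤ m * ((1 + ε / 8) * s) := mul_le_mul_of_nonneg_left (by linarith [h4.2]) hm0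
      have h7 : 0 ≤ (m : ℝ) * s := by positivity
      have h8 : ε / 2 * (m * P) ≤ ε / 2 * (m * ((1 + ε / 8) * s)) := mul_le_mul_of_nonneg_left h6 (by positivity)
      have h9 : ε / 2 * (m * ((1 + ε / 8) * s)) + m * (ε / 8 * s) ≤ ε * (m * s) := by
        have : ε / 2 * (1 + ε / 8) + ε / 8 ≤ ε := by nlinarith
        calc ε / 2 * (m * ((1 + ε / 8) * s)) + m * (ε / 8 * s) = (ε / 2 * (1 + ε / 8) + ε / 8) * (m * s) := by ring
          _ ≤ ε * (m * s) := mul_le_mul_of_nonneg_right this h7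
      linarith
    have h10 : (((Smp (PH H) m).filter fun w => fail n w).card : ℝ) ≤
        ((Smp (PH H) m).filter fun w => ε / 2 * (m * P) < |(hits (GP H n) w : ℝ) - m * P|).card := by
      exact_mod_cast card_le_card hsub
    refine h10.trans (hch.trans ?_)
    refine mul_le_mul_of_nonneg_left ?_ (by norm_num)
    refine mul_le_mul_of_nonneg_left (Real.exp_le_exp.2 ?_) (by positivity)
    rw [hx]
    have h11 : 7 / 8 * (1 / L) ≤ P := by
      have : (1 - ε / 8) * s ≤ P := by linarith [h4.1]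
      have h12 : 7 / 8 * (1 / L) ≤ (1 - ε / 8) * s :=
        mul_le_mul (by linarith) hs2 (by positivity) (by linarith)
      linarith
    have h13 : (m : ℝ) * (7 / 8 * (1 / L)) ≤ m * P := mul_le_mul_of_nonneg_left h11 hm0
    have h14 : (0 : ℝ) ≤ m / L := by positivity
    have h15 : (m : ℝ) * (7 / 8 * (1 / L)) = 7 / 8 * (m / L) := by ring
    rw [h15] at h13
    have h16 : 0 < ε ^ 2 := by positivity
    nlinarith
  refine ⟨((Smp (PH H) m).filter fun w => 2 * Real.exp (-x) * N <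
      (((Icc 1 N).filter fun n => 2 ∣ n ∧ n ∉ E ∧ fail n w).card : ℝ)), ?_, ?_, ?_⟩
  · -- Markov
    have hex : 0 < 2 * Real.exp (-x) * N := by positivity
    have h2 := Pool.Agent.Run7.h931.MK.card_markov (Smp (PH H) m)
      (fun w => (((Icc 1 N).filter fun n => 2 ∣ n ∧ n ∉ E ∧ fail n w).card : ℝ)) (fun _ _ => Nat.cast_nonneg _)
      (2 * Real.exp (-x) * N) (N * (2 * (c ^ m * Real.exp (-(2 * x))))) hex (by
        have h3 : ∀ w, (((Icc 1 N).filter fun n => 2 ∣ n ∧ n ∉ E ∧ fail n w).card : ℝ) =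
            ∑ n ∈ (Icc 1 N).filter (fun n => 2 ∣ n ∧ n ∉ E), (if fail n w then (1 : ℝ) else 0) := by
          intro w
          rw [sum_boole, filter_filter]
          simp only [and_assoc]
        simp only [h3]
        rw [sum_comm]
        calc ∑ n ∈ (Icc 1 N).filter (fun n => 2 ∣ n ∧ n ∉ E), ∑ w ∈ Smp (PH H) m, (if fail n w then (1 : ℝ) else 0) ≤
              ∑ _n ∈ (Icc 1 N).filter (fun n => 2 ∣ n ∧ n ∉ E), 2 * (c ^ m * Real.exp (-(2 * x))) := by
              refine sum_le_sum fun n hn => ?_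
              obtain ⟨hn1, hn2, hn3⟩ := mem_filter.1 hn
              rw [sum_boole]
              exact hone n (mem_Icc.1 hn1).1 (mem_Icc.1 hn1).2 hn2 hn3
          _ ≤ N * (2 * (c ^ m * Real.exp (-(2 * x)))) := by
              rw [sum_const, nsmul_eq_mul]
              refine mul_le_mul_of_nonneg_right ?_ (by positivity)
              have : ((Icc 1 N).filter (fun n => 2 ∣ n ∧ n ∉ E)).card ≤ (Icc 1 N).card := card_filter_le _ _
              rw [Nat.card_Icc, Nat.add_sub_cancel] at this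
              exact_mod_cast this)
    refine h2.trans (le_of_eq ?_)
    rw [← hc, div_eq_iff hex.ne']
    have : Real.exp (-(2 * x)) = Real.exp (-x) * Real.exp (-x) := by rw [← Real.exp_add]; congr 1; ring
    rw [this]
    ring
  · intro w hw hwB
    refine ⟨(Icc 1 N).filter fun n => 2 ∣ n ∧ n ∉ E ∧ fail n w, ?_, ?_⟩
    · by_contra hcon
      exact hwB (mem_filter.2 ⟨Smp_mem.2 hw, lt_of_not_ge hcon⟩)
    · intro n hn1 hn2 hn3 hn4 hn5
      by_contra hcon
      refine hn5 (mem_filter.2 ⟨mem_Icc.2 ⟨hn1, hn2⟩, hn3, hn4, ?_⟩)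
      rw [hfail]
      exact hcon
  · intro hm
    refine ⟨((Icc 1 N).filter fun n => 2 ∣ n ∧ n ∉ E).biUnion fun n => (Smp (PH H) m).filter fun w => ∀ l, w l ∉ GP H n, ?_, ?_⟩
    · have h2 : ∀ n ∈ (Icc 1 N).filter (fun n => 2 ∣ n ∧ n ∉ E),
          (((Smp (PH H) m).filter fun w => ∀ l, w l ∉ GP H n).card : ℝ) ≤ c ^ m * Real.exp (-((1 + ε / 2) * L)) := by
        intro n hn
        obtain ⟨hn1, hn2, hn3⟩ := mem_filter.1 hn
        have h3 := nohit (PH H) (GP H n) (GP_sub H n) m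
        obtain ⟨-, h4⟩ := hP n (mem_Icc.1 hn1).1 (mem_Icc.1 hn1).2 hn2 hn3
        rw [← hc] at h3
        refine h3.trans ?_
        refine mul_le_mul_of_nonneg_left (Real.exp_le_exp.2 ?_) (by positivity)
        have h5 := abs_le.1 h4
        have h6 : (1 - ε / 8) * (2 * C₂ / L) ≤ ((GP H n).card : ℝ) / c := by
          have h7 : (1 - ε / 8) * (sing n / L) ≤ ((GP H n).card : ℝ) / c := by linarith [h5.1]
          refine le_trans ?_ h7
          exact mul_le_mul_of_nonneg_left (div_le_div_of_nonneg_right (sing_ge_C2 n) hL0.le) (by linarith)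
        have h7 := mul_le_mul_of_nonneg_left h6 hm0
        have h8 : (m : ℝ) * ((1 - ε / 8) * (2 * C₂ / L)) = (1 - ε / 8) * (2 * C₂ * m) / L := by ring
        rw [h8] at h7
        have h9 : (1 - ε / 8) * ((1 + ε) * L ^ 2) / L ≤ (1 - ε / 8) * (2 * C₂ * m) / L := by
          refine div_le_div_of_nonneg_right (mul_le_mul_of_nonneg_left hm (by linarith)) hL0.le
        have h10 : (1 - ε / 8) * ((1 + ε) * L ^ 2) / L = (1 - ε / 8) * (1 + ε) * L := by field_simp
        rw [h10] at h9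
        have h11 : (1 + ε / 2) * L ≤ (1 - ε / 8) * (1 + ε) * L := by
          refine mul_le_mul_of_nonneg_right ?_ hL0.le
          nlinarith
        linarith
      calc ((((Icc 1 N).filter fun n => 2 ∣ n ∧ n ∉ E).biUnion fun n => (Smp (PH H) m).filter fun w => ∀ l, w l ∉ GP H n).card : ℝ)
          ≤ ((∑ n ∈ (Icc 1 N).filter (fun n => 2 ∣ n ∧ n ∉ E), ((Smp (PH H) m).filter fun w => ∀ l, w l ∉ GP H n).card : ℕ) : ℝ) := by
            exact_mod_cast card_biUnion_le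
        _ = ∑ n ∈ (Icc 1 N).filter (fun n => 2 ∣ n ∧ n ∉ E), (((Smp (PH H) m).filter fun w => ∀ l, w l ∉ GP H n).card : ℝ) := by
            rw [Nat.cast_sum]
        _ ≤ ∑ _n ∈ (Icc 1 N).filter (fun n => 2 ∣ n ∧ n ∉ E), c ^ m * Real.exp (-((1 + ε / 2) * L)) := sum_le_sum h2
        _ ≤ N * (c ^ m * Real.exp (-((1 + ε / 2) * L))) := by
            rw [sum_const, nsmul_eq_mul]
            refine mul_le_mul_of_nonneg_right ?_ (by positivity)
            have : ((Icc 1 N).filter (fun n => 2 ∣ n ∧ n ∉ E)).card ≤ (Icc 1 N).card := card_filter_le _ _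
            rw [Nat.card_Icc, Nat.add_sub_cancel] at this
            exact_mod_cast this
        _ = ((PH H).card : ℝ) ^ m / (N : ℝ) ^ (ε / 2) := by
            rw [← hc, hL, Real.rpow_def_of_pos hN0]
            have h3 : Real.exp (-((1 + ε / 2) * Real.log N)) = (N : ℝ)⁻¹ * (Real.exp (Real.log N * (ε / 2)))⁻¹ := by
              rw [← Real.exp_neg]
              nth_rewrite 2 [← Real.exp_log hN0]
              rw [← Real.exp_neg, ← Real.exp_add]
              congr 1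
              ring
            rw [h3]
            field_simp
    · intro w hw hwB n hn1 hn2 hn3 hn4
      by_contra hcon
      push Not at hcon
      refine hwB (mem_biUnion.2 ⟨n, mem_filter.2 ⟨mem_Icc.2 ⟨hn1, hn2⟩, hn3, hn4⟩, mem_filter.2 ⟨Smp_mem.2 hw, ?_⟩⟩)
      intro l hl
      exact hcon l (mem_filter.1 hl).2

end Pool.Agent.Run7.h880.MK
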